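import Mathlib

/-!
# Triple systems with the identities (I1), (I2), (I3): elementary consequences
-/

set_option autoImplicit false

namespace Pool.Agent.P09.Triple

universe u

variable {W : Type u} [AddCommGroup W] [Module ℂ W]

/-- The three identities. -/
structure Ids (B : W →ₗ[ℂ] W →ₗ[ℂ] W →ₗ[ℂ] W) : Prop where
  i1 : ∀ X Y U V, B X Y (B X V U) = B X (B Y X V) U
  i2 : ∀ X Y Z V, B X (B Y Z V) Z = B (B X Y Z) V Z
  i3 : ∀ X Y Z V, B X Y (B Z Y V) = B (B X Y Z) Y V

namespace Ids

variable {B : W →ₗ[ℂ] W →ₗ[ℂ] W →ₗ[ℂ] W} (h : Ids B)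
include h

lemma I1 (x y z v u : W) :
    B x y (B z v u) + B z y (B x v u) = B x (B y z v) u + B z (B y x v) u := by
  have e := h.i1 (x + z) y u v
  simp only [map_add, LinearMap.add_apply] at e
  have e1 := h.i1 x y u v
  have e2 := h.i1 z y u v
  linear_combination (norm := module) e - e1 - e2

lemma I2 (x y z v w : W) :
    B x (B y z v) w + B x (B y w v) z = B (B x y z) v w + B (B x y w) v z := by
  have e := h.i2 x y (z + w) v
  simp only [map_add, LinearMap.add_apply] at e
  have e1 := h.i2 x y z v
  have e2 := h.i2 x y w v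
  linear_combination (norm := module) e - e1 - e2

lemma I3 (x y z w v : W) :
    B x y (B z w v) + B x w (B z y v) = B (B x y z) w v + B (B x w z) y v := by
  have e := h.i3 x (y + w) z v
  simp only [map_add, LinearMap.add_apply] at e
  have e1 := h.i3 x y z v
  have e2 := h.i3 x w z v
  linear_combination (norm := module) e - e1 - e2

/-- commutator of left and right multiplications -/
lemma LR (x y u w z : W) :
    B x y (B u w z) - B (B x y u) w z =
      B (B x y z) w u - B x (B y z w) u + B u (B y x w) z - B u y (B x w z) := by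
  have e1 := h.I2 x y z w u
  have e2 := h.I1 x y u w z
  linear_combination (norm := module) e1 + e2

end Ids

/-- the Jordan triple product -/
def J (B : W →ₗ[ℂ] W →ₗ[ℂ] W →ₗ[ℂ] W) (x y z : W) : W := B x y z + B z y x

namespace Ids

variable {B : W →ₗ[ℂ] W →ₗ[ℂ] W →ₗ[ℂ] W} (h : Ids B)
include h

lemma jordan (x y z w u : W) :
    J B x y (J B z w u) - J B z w (J B x y u) = J B (J B x y z) w u - J B z (J B y x w) u := by
  simp only [J, map_add, LinearMap.add_apply]
  have a1 := h.I3 z y u w x
  have a2 := h.I3 x y z w u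
  have a3 := h.I2 x w z y u
  have a4 := h.I1 u y z w x
  have a5 := h.I3 u y z w x
  have a6 := h.I2 z y u w x
  have a7 := h.I2 u y x w z
  have a8 := h.I1 u w x y z
  have a9 := h.I3 x y u w z
  have a10 := h.I1 x w z y u
  linear_combination (norm := module) -a1 + a2 - a3 + a4 - a5 + a6 + a7 - a8 + a9 - a10

end Ids

end Pool.Agent.P09.Triple
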