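import Pool.Agent.P09.Triple.Nuc

/-!
# Classification of the simple systems
-/

set_option autoImplicit false

namespace Pool.Agent.P09.Triple

universe u

variable {W : Type u} [AddCommGroup W] [Module ℂ W]

/-- one-sided Peirce space -/
def Fx (B : W →ₗ[ℂ] W →ₗ[ℂ] W →ₗ[ℂ] W) (e f : W) : Submodule ℂ W where
  carrier := {x | B x f e = x}
  add_mem' := by
    rintro a b h1 h2
    simp only [Set.mem_ofPred_eq, map_add, LinearMap.add_apply] at *
    rw [h1, h2]
  zero_mem' := by simp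
  smul_mem' := by
    rintro c a h1
    simp only [Set.mem_ofPred_eq, map_smul, LinearMap.smul_apply] at *
    rw [h1]

lemma mem_Fx {B : W →ₗ[ℂ] W →ₗ[ℂ] W →ₗ[ℂ] W} {e f x : W} : x ∈ Fx B e f ↔ B x f e = x := Iff.rfl

namespace Ids

variable {B : W →ₗ[ℂ] W →ₗ[ℂ] W →ₗ[ℂ] W} (h : Ids B)
include h

lemma exists_minPair [FiniteDimensional ℂ W] (hs : IsSimpleTriple B) : ∃ e f, MinPair B e f := by
  obtain ⟨e, f, hp, he0, hmin⟩ := h.exists_min hs
  refine ⟨e, f, hp, he0, fun w => hmin _ (h.ewe_mem hp w), fun w => ?_⟩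
  have hy := h.ewe_mem hp.symm w
  rw [mem_Pe] at hy
  have e1 := h.mid f e (B f w f)
  rw [hy.2, hy.1] at e1
  obtain ⟨c, hc⟩ := hmin _ (h.ewe_mem hp (B f w f))
  refine ⟨c, ?_⟩
  rw [← e1, hc, map_smul, LinearMap.smul_apply, hp.fef]

section nd

variable (nd : ∀ x, (∀ y, bf B x y = 0) → x = 0) {e f : W}
include nd

lemma mem_Fx_mul (hp : MinPair B e f) {p : W} (hpp : p ∈ Fx B e f) (x y : W) :
    B x y p ∈ Fx B e f := by
  rw [mem_Fx] at *
  rw [← (h.nuc nd hp x y p e).2.2.2.1.1, hpp]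

lemma mem_Fx_e (hp : MinPair B e f) (x y : W) : B x y e ∈ Fx B e f :=
  h.mem_Fx_mul nd hp hp.idem.efe x y

/-- the representation -/
noncomputable def pi (hp : MinPair B e f) : W →ₗ[ℂ] Fx B f e →ₗ[ℂ] Fx B e f :=
  LinearMap.mk₂ ℂ (fun x p => ⟨B x p e, h.mem_Fx_e nd hp x p⟩)
    (by intro a b c; apply Subtype.ext; simp)
    (by intro a b c; apply Subtype.ext; simp)
    (by intro a b c; apply Subtype.ext; simp)
    (by intro a b c; apply Subtype.ext; simp)

lemma pi_apply (hp : MinPair B e f) (x : W) (p : Fx B f e) :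
    (h.pi nd hp x p : W) = B x p e := rfl

lemma pi_mul (hp : MinPair B e f) (x y z : W) :
    h.pi nd hp (B x y z) = h.pi nd hp x ∘ₗ h.pi nd hp.symm y ∘ₗ h.pi nd hp z := by
  refine LinearMap.ext fun p => Subtype.ext ?_
  change B (B x y z) p e = B x (B y (B z p e) f) e
  have a1 := (h.nuc nd hp y z p e).2.2.2.2
  have a2 := (h.nuc nd hp.symm x y z p).2.2.2.2
  rw [a1.2, ← a1.1]
  have hpp : B p e f = p := p.2
  rw [hpp, a2.2]

omit nd in
lemma bf_ne (hp : MinPair B e f) [FiniteDimensional ℂ W] : bf B e f ≠ 0 :=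
  h.bf_idem_ne_zero hp.idem hp.ne

lemma pfv (hp : MinPair B e f) [FiniteDimensional ℂ W] (p : W) {v : W} (hpp : p ∈ Fx B e f)
    (hv : v ∈ Fx B e f) : B p f v = (bf B v f / bf B e f) • p := by
  have hb := h.bf_ne hp
  have h1 : B e f v = B e (B f v f) e := by
    conv_lhs => rw [← mem_Fx.1 hv]
    rw [(h.nuc nd hp e f v e).2.2.2.1.1, ← (h.nuc nd hp e f v e).2.2.2.1.2]
  obtain ⟨c, hc⟩ := hp.he (B f v f)
  rw [← h1] at hc
  have h2 : c * bf B e f = bf B v f := by
    have := congrArg (fun w => bf B w f) hc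
    simp only [map_smul, LinearMap.smul_apply, smul_eq_mul] at this
    rw [← this, h.bfR, hp.idem.fef]
  rw [h.c1b hp.idem, hc, map_smul, mem_Fx.1 hpp, ← h2, mul_div_cancel_right₀ _ hb]

/-- multiplication of elements of rank one -/
lemma mulF (hp : MinPair B e f) [FiniteDimensional ℂ W] {p r : W} (hpp : p ∈ Fx B e f)
    (hr : r ∈ Fx B e f) (u v y : W) :
    B (B p f u) y (B r f v) = (bf B u (B y r f) / bf B e f) • B p f v := by
  rw [← (h.nuc nd hp p u y (B r f v)).2.1.1, (h.nuc nd hp u y r v).2.2.2.1.1, h.i3,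
    h.pfv nd hp p hpp (h.mem_Fx_mul nd hp hr u y), h.bf_assoc, map_smul, LinearMap.smul_apply,
    LinearMap.smul_apply]

lemma pi_rank_one (hp : MinPair B e f) [FiniteDimensional ℂ W] {p : W} (hpp : p ∈ Fx B e f)
    (u : W) {p' : W} (hp' : p' ∈ Fx B f e) :
    B (B p f u) p' e = (bf B u p' / bf B e f) • p := by
  have := h.mulF nd hp hpp (mem_Fx.2 hp.idem.efe) u e p'
  rw [hp.idem.efe, mem_Fx.1 hpp, mem_Fx.1 hp'] at this
  exact this

lemma pi_surj (hp : MinPair B e f) [FiniteDimensional ℂ W] :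
    Function.Surjective (h.pi nd hp) := by
  classical
  have hb := h.bf_ne hp
  -- every functional on `W` comes from the form
  have hinj : Function.Injective (bf B) := by
    rw [← LinearMap.ker_eq_bot, LinearMap.ker_eq_bot']
    intro x hx
    exact nd x fun y => by rw [hx]; rfl
  have hsurj : Function.Surjective (bf B) := by
    have := (LinearMap.injective_iff_surjective_of_finrank_eq_finrank
      (f := bf B) (Subspace.dual_finrank_eq).symm).1 hinj
    exact this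
  intro φ
  let b := Module.finBasis ℂ (Fx B f e)
  have hu : ∀ i, ∃ u : W, ∀ p : Fx B f e, bf B u p = b.coord i p := by
    intro i
    obtain ⟨g, hg⟩ := LinearMap.exists_extend (b.coord i)
    obtain ⟨u, hu⟩ := hsurj g
    refine ⟨u, fun p => ?_⟩
    rw [hu, ← hg]
    rfl
  choose u hu using hu
  refine ⟨bf B e f • ∑ i, B (φ (b i) : W) f (u i), ?_⟩
  refine LinearMap.ext fun p => Subtype.ext ?_
  rw [map_smul, map_sum, LinearMap.smul_apply, LinearMap.sum_apply, Submodule.coe_smul,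
    Submodule.coe_sum]
  have h1 : ∀ i, ((h.pi nd hp (B (φ (b i) : W) f (u i)) p : Fx B e f) : W) =
      (b.coord i p / bf B e f) • (φ (b i) : W) := by
    intro i
    rw [pi_apply, h.pi_rank_one nd hp (φ (b i)).2 (u i) p.2, hu]
  simp only [h1]
  rw [Finset.smul_sum]
  conv_rhs => rw [← b.sum_repr p, map_sum, Submodule.coe_sum]
  refine Finset.sum_congr rfl fun i _ => ?_
  rw [smul_smul, map_smul, Submodule.coe_smul, mul_div_cancel₀ _ hb]
  rfl

lemma ker_mul (hp : MinPair B e f) {x : W} (hx : x ∈ LinearMap.ker (h.pi nd hp)) (y z : W) :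
    B x y z ∈ LinearMap.ker (h.pi nd hp) ∧ B y x z ∈ LinearMap.ker (h.pi nd hp.symm) ∧
      B y z x ∈ LinearMap.ker (h.pi nd hp) := by
  rw [LinearMap.mem_ker] at *
  refine ⟨?_, ?_, ?_⟩
  · rw [h.pi_mul nd hp, hx, LinearMap.zero_comp]
  · rw [LinearMap.mem_ker, h.pi_mul nd hp.symm]
    have : h.pi nd hp.symm.symm x = 0 := hx
    rw [this, LinearMap.zero_comp, LinearMap.comp_zero]
  · rw [LinearMap.mem_ker, h.pi_mul nd hp, hx, LinearMap.comp_zero, LinearMap.comp_zero]

lemma e_not_mem (hp : MinPair B e f) : e ∉ LinearMap.ker (h.pi nd hp) := by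
  intro h0
  rw [LinearMap.mem_ker] at h0
  have := congrArg (fun g => ((g ⟨f, hp.idem.fef⟩ : Fx B e f) : W)) h0
  simp only [pi_apply, LinearMap.zero_apply, Submodule.coe_zero] at this
  rw [hp.idem.efe] at this
  exact hp.ne this

lemma ker_inf (hp : MinPair B e f) (hs : IsSimpleTriple B) :
    LinearMap.ker (h.pi nd hp) ⊓ LinearMap.ker (h.pi nd hp.symm) = ⊥ := by
  refine (hs.2 _ ?_).resolve_right ?_
  · rintro x ⟨h1, h2⟩ y z
    have a1 := h.ker_mul nd hp h1 y z
    have a2 := h.ker_mul nd hp.symm h2 y z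
    exact ⟨⟨a1.1, a2.1⟩, ⟨a2.2.1, a1.2.1⟩, ⟨a1.2.2, a2.2.2⟩⟩
  · intro htop
    have : e ∈ LinearMap.ker (h.pi nd hp) ⊓ LinearMap.ker (h.pi nd hp.symm) := by
      rw [htop]; exact Submodule.mem_top
    exact h.e_not_mem nd hp this.1

lemma ker_sup (hp : MinPair B e f) (hs : IsSimpleTriple B) :
    LinearMap.ker (h.pi nd hp) ⊔ LinearMap.ker (h.pi nd hp.symm) = ⊥ ∨
      LinearMap.ker (h.pi nd hp) ⊔ LinearMap.ker (h.pi nd hp.symm) = ⊤ := by
  apply hs.2
  intro x hx y z
  obtain ⟨a, ha, b, hb, rfl⟩ := Submodule.mem_sup.1 hx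
  have a1 := h.ker_mul nd hp ha y z
  have a2 := h.ker_mul nd hp.symm hb y z
  simp only [map_add, LinearMap.add_apply]
  refine ⟨?_, ?_, ?_⟩
  · exact add_mem (Submodule.mem_sup_left a1.1) (Submodule.mem_sup_right a2.1)
  · exact add_mem (Submodule.mem_sup_right a1.2.1) (Submodule.mem_sup_left a2.2.1)
  · exact add_mem (Submodule.mem_sup_left a1.2.2) (Submodule.mem_sup_right a2.2.2)

/-- if no element of rank one has a nonzero cube -/
lemma no_cube (hp : MinPair B e f) [FiniteDimensional ℂ W]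
    (hc : ∀ p ∈ Fx B e f, ∀ u, bf B u (B (B p f u) p f) = 0) :
    ∀ p ∈ Fx B e f, ∀ q ∈ Fx B e f, ∀ u, B (B p f u) q f = 0 := by
  have hb := h.bf_ne hp
  -- step 1
  have s1 : ∀ p ∈ Fx B e f, ∀ u v, bf B u (B (B p f v) p f) = 0 := by
    intro p hpp u v
    by_cases hp0 : p = 0
    · rw [hp0]; simp
    have hpol : bf B u (B (B p f v) p f) + bf B v (B (B p f u) p f) = 0 := by
      have := hc p hpp (u + v)
      simp only [map_add, LinearMap.add_apply] at this
      rw [hc p hpp u, hc p hpp v] at this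
      linear_combination this
    have e1 := h.i1 (B p f u) (B p f v) (B p f e) (B p f v)
    simp only [h.mulF nd hp hpp hpp, map_smul, LinearMap.smul_apply, smul_smul] at e1
    rw [mem_Fx.1 hpp, ← sub_eq_zero, ← sub_smul] at e1
    have e2 := (smul_eq_zero.1 e1).resolve_right hp0
    field_simp at e2
    have e3 : bf B u (B (B p f v) p f) * bf B u (B (B p f v) p f) = 0 := by
      linear_combination (1 / 2 : ℂ) * e2 + (1 / 2 : ℂ) * bf B u (B (B p f v) p f) * hpol
    exact mul_self_eq_zero.1 e3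
  have s1' : ∀ p ∈ Fx B e f, ∀ v, B (B p f v) p f = 0 := by
    intro p hpp v
    apply nd
    intro y
    rw [bf_comm]
    exact s1 p hpp y v
  have s1'' : ∀ p ∈ Fx B e f, ∀ q ∈ Fx B e f, ∀ v, B (B p f v) q f = - B (B q f v) p f := by
    intro p hpp q hq v
    have := s1' (p + q) (add_mem hpp hq) v
    simp only [map_add, LinearMap.add_apply] at this
    rw [s1' p hpp v, s1' q hq v] at this
    linear_combination (norm := module) this
  have s2 : ∀ p ∈ Fx B e f, ∀ q ∈ Fx B e f, ∀ u, bf B u (B (B p f u) q f) = 0 := by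
    intro p hpp q hq u
    by_cases hx : B p f u = 0
    · rw [hx]; simp
    have hsk : bf B u (B (B p f u) q f) = - bf B u (B (B q f u) p f) := by
      rw [s1'' p hpp q hq u, map_neg]
    have e1 := h.i2 (B p f u) (B q f u) (B p f u) (B q f u)
    simp only [h.mulF nd hp hpp hpp, h.mulF nd hp hq hq, map_smul, LinearMap.smul_apply,
      smul_smul] at e1
    rw [← sub_eq_zero, ← sub_smul] at e1
    have e2 := (smul_eq_zero.1 e1).resolve_right hx
    field_simp at e2
    have e3 : bf B u (B (B p f u) q f) * bf B u (B (B p f u) q f) = 0 := by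
      linear_combination (-1 / 2 : ℂ) * e2 +
        (bf B u (B (B p f u) q f) - (1 / 2 : ℂ) * bf B u (B (B q f u) p f)) * hsk
    exact mul_self_eq_zero.1 e3
  have s2' : ∀ p ∈ Fx B e f, ∀ q ∈ Fx B e f, ∀ u v,
      bf B v (B (B p f u) q f) = - bf B u (B (B p f v) q f) := by
    intro p hpp q hq u v
    have := s2 p hpp q hq (u + v)
    simp only [map_add, LinearMap.add_apply] at this
    rw [s2 p hpp q hq u, s2 p hpp q hq v] at this
    linear_combination this
  intro p hpp q hq u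
  apply nd
  intro v
  rw [bf_comm]
  set m := bf B v (B (B p f u) q f) with hm
  by_contra hm0
  have e1 : B (B p f u) (B q f v) (B p f v) = (m / bf B e f) • B p f v := by
    rw [h.mulF nd hp hpp hpp, s1'' q hq p hpp v, map_neg, ← s2' p hpp q hq u v]
  have e2 : ∀ r ∈ Fx B e f, B (B q f v) (B p f v) r = 0 := by
    intro r hr
    have := h.mulF nd hp hq hr v e (B p f v)
    rw [mem_Fx.1 hr, s2 p hpp r hr v, zero_div, zero_smul] at this
    exact this
  have e3 : B (B p f v) q f = 0 := by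
    have a1 := (h.nuc nd hp (B p f u) (B q f v) (B p f v) q).2.2.2.2.2
    rw [e2 q hq, e1] at a1
    simp only [map_zero, map_smul, LinearMap.smul_apply, LinearMap.zero_apply] at a1
    have := smul_eq_zero.1 a1.symm
    exact this.resolve_left (div_ne_zero hm0 hb)
  apply hm0
  rw [hm, s2' p hpp q hq u v, e3]
  simp

/-- an element of rank one with a nonzero cube gives a minimal tripotent -/
lemma exists_tripotent (hp : MinPair B e f) [FiniteDimensional ℂ W] {p : W}
    (hpp : p ∈ Fx B e f) {u : W} (hc : bf B u (B (B p f u) p f) ≠ 0) : ∃ t, MinPair B t t := by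
  have hb := h.bf_ne hp
  set x := B p f u with hx
  have hmul : ∀ y, B x y x = (bf B u (B y p f) / bf B e f) • x := fun y =>
    h.mulF nd hp hpp hpp u u y
  have hx0 : x ≠ 0 := by
    intro h0
    rw [h0] at hc
    simp at hc
  obtain ⟨s, hs⟩ := IsAlgClosed.exists_pow_nat_eq (bf B e f / bf B u (B x p f)) (n := 2)
    two_pos
  have hs0 : s ≠ 0 := by
    intro h0
    rw [h0] at hs
    simp only [ne_eq, OfNat.ofNat_ne_zero, not_false_eq_true, zero_pow] at hs
    exact div_ne_zero hb hc hs.symm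
  have key : ∀ w, B (s • x) w (s • x) = (s * (bf B u (B w p f) / bf B e f)) • (s • x) := by
    intro w
    simp only [map_smul, LinearMap.smul_apply]
    rw [hmul, smul_smul, smul_smul, smul_smul]
    congr 1
    ring
  have hid : B (s • x) (s • x) (s • x) = s • x := by
    rw [key]
    simp only [map_smul, LinearMap.smul_apply, smul_eq_mul]
    have : s * (s * bf B u (B x p f) / bf B e f) = 1 := by
      have : s * (s * bf B u (B x p f) / bf B e f) = s ^ 2 * (bf B u (B x p f) / bf B e f) := by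
        ring
      rw [this, hs]
      field_simp
    rw [this, one_smul]
  exact ⟨s • x, ⟨hid, hid⟩, smul_ne_zero hs0 hx0, fun w => ⟨_, key w⟩, fun w => ⟨_, key w⟩⟩

end nd

end Ids

/-- `B` is isomorphic to the triple system of `n × n` matrices with the product `XYZ` -/
def IsoMat (B : W →ₗ[ℂ] W →ₗ[ℂ] W →ₗ[ℂ] W) (n : ℕ) : Prop :=
  ∃ φ : W ≃ₗ[ℂ] Matrix (Fin n) (Fin n) ℂ, ∀ X Y Z, φ (B X Y Z) = φ X * φ Y * φ Z

/-- `B` is isomorphic to the triple system of pairs of a `p × q` and a `q × p` matrix with the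
product `(X₁Y₂Z₁, X₂Y₁Z₂)` -/
def IsoPair (B : W →ₗ[ℂ] W →ₗ[ℂ] W →ₗ[ℂ] W) (p q : ℕ) : Prop :=
  ∃ φ : W ≃ₗ[ℂ] Matrix (Fin p) (Fin q) ℂ × Matrix (Fin q) (Fin p) ℂ,
    ∀ X Y Z, φ (B X Y Z) = ((φ X).1 * (φ Y).2 * (φ Z).1, (φ X).2 * (φ Y).1 * (φ Z).2)

lemma IsoPair.swap {B : W →ₗ[ℂ] W →ₗ[ℂ] W →ₗ[ℂ] W} {p q : ℕ} (hB : IsoPair B p q) :
    IsoPair B q p := by
  obtain ⟨φ, hφ⟩ := hB
  refine ⟨φ.trans (LinearEquiv.prodComm ℂ _ _), fun X Y Z => ?_⟩
  simp [hφ]

namespace Ids

variable {B : W →ₗ[ℂ] W →ₗ[ℂ] W →ₗ[ℂ] W} (h : Ids B)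
include h

lemma isoMat_of_tripotent [FiniteDimensional ℂ W] (hs : IsSimpleTriple B) {t : W}
    (hp : MinPair B t t) : ∃ n, 1 ≤ n ∧ IsoMat B n := by
  classical
  have nd := h.nondeg hs
  have hinj : LinearMap.ker (h.pi nd hp) = ⊥ := by
    have := h.ker_inf nd hp hs
    rwa [inf_idem] at this
  let φ := LinearEquiv.ofBijective (h.pi nd hp) ⟨LinearMap.ker_eq_bot.1 hinj, h.pi_surj nd hp⟩
  have hφ : ∀ X Y Z, φ (B X Y Z) = φ X ∘ₗ φ Y ∘ₗ φ Z := fun X Y Z => h.pi_mul nd hp X Y Z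
  let b := Module.finBasis ℂ (Fx B t t)
  refine ⟨Module.finrank ℂ (Fx B t t), ?_, φ.trans (LinearMap.toMatrix b b), ?_⟩
  · rw [Nat.one_le_iff_ne_zero, ← Nat.pos_iff_ne_zero, Module.finrank_pos_iff_exists_ne_zero]
    exact ⟨⟨t, hp.idem.efe⟩, fun h0 => hp.ne (congrArg Subtype.val h0)⟩
  · intro X Y Z
    simp only [LinearEquiv.trans_apply]
    rw [hφ, LinearMap.toMatrix_comp b b b, LinearMap.toMatrix_comp b b b, Matrix.mul_assoc]

lemma isoPair_of_top [FiniteDimensional ℂ W] (hs : IsSimpleTriple B) {e f : W}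
    (hp : MinPair B e f) (htop : LinearMap.ker (h.pi (h.nondeg hs) hp) ⊔
      LinearMap.ker (h.pi (h.nondeg hs) hp.symm) = ⊤) :
    ∃ p q, 1 ≤ p ∧ 1 ≤ q ∧ IsoPair B p q := by
  classical
  have nd := h.nondeg hs
  let Φ := (h.pi nd hp).prod (h.pi nd hp.symm)
  have hinj : Function.Injective Φ := by
    rw [← LinearMap.ker_eq_bot, LinearMap.ker_prod]
    exact h.ker_inf nd hp hs
  have hsurj : Function.Surjective Φ := by
    rintro ⟨a, a'⟩
    obtain ⟨x, hx⟩ := h.pi_surj nd hp a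
    obtain ⟨x', hx'⟩ := h.pi_surj nd hp.symm a'
    obtain ⟨k, hk, k', hk', hkk⟩ := Submodule.mem_sup.1 (htop ▸ Submodule.mem_top :
      x ∈ LinearMap.ker (h.pi nd hp) ⊔ LinearMap.ker (h.pi nd hp.symm))
    obtain ⟨l, hl, l', hl', hll⟩ := Submodule.mem_sup.1 (htop ▸ Submodule.mem_top :
      x' ∈ LinearMap.ker (h.pi nd hp) ⊔ LinearMap.ker (h.pi nd hp.symm))
    rw [LinearMap.mem_ker] at hk hk' hl hl'
    refine ⟨k' + l, ?_⟩
    refine Prod.ext ?_ ?_
    · change h.pi nd hp (k' + l) = a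
      rw [map_add, hl, add_zero, ← hx, ← hkk, map_add, hk, zero_add]
    · change h.pi nd hp.symm (k' + l) = a'
      rw [map_add, hk', zero_add, ← hx', ← hll, map_add, hl', add_zero]
  let φ := LinearEquiv.ofBijective Φ ⟨hinj, hsurj⟩
  have hφ1 : ∀ X Y Z, (φ (B X Y Z)).1 = (φ X).1 ∘ₗ (φ Y).2 ∘ₗ (φ Z).1 := fun X Y Z =>
    h.pi_mul nd hp X Y Z
  have hφ2 : ∀ X Y Z, (φ (B X Y Z)).2 = (φ X).2 ∘ₗ (φ Y).1 ∘ₗ (φ Z).2 := fun X Y Z =>
    h.pi_mul nd hp.symm X Y Z
  let b := Module.finBasis ℂ (Fx B e f)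
  let c := Module.finBasis ℂ (Fx B f e)
  refine ⟨Module.finrank ℂ (Fx B e f), Module.finrank ℂ (Fx B f e), ?_, ?_,
    φ.trans (LinearEquiv.prodCongr (LinearMap.toMatrix c b) (LinearMap.toMatrix b c)), ?_⟩
  · rw [Nat.one_le_iff_ne_zero, ← Nat.pos_iff_ne_zero, Module.finrank_pos_iff_exists_ne_zero]
    exact ⟨⟨e, hp.idem.efe⟩, fun h0 => hp.ne (congrArg Subtype.val h0)⟩
  · rw [Nat.one_le_iff_ne_zero, ← Nat.pos_iff_ne_zero, Module.finrank_pos_iff_exists_ne_zero]
    exact ⟨⟨f, hp.symm.idem.efe⟩, fun h0 => hp.symm.ne (congrArg Subtype.val h0)⟩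
  · intro X Y Z
    refine Prod.ext ?_ ?_
    · change LinearMap.toMatrix c b ((φ (B X Y Z)).1) = LinearMap.toMatrix c b (φ X).1 *
        LinearMap.toMatrix b c (φ Y).2 * LinearMap.toMatrix c b (φ Z).1
      rw [hφ1, LinearMap.toMatrix_comp c c b, LinearMap.toMatrix_comp c b c, Matrix.mul_assoc]
    · change LinearMap.toMatrix b c ((φ (B X Y Z)).2) = LinearMap.toMatrix b c (φ X).2 *
        LinearMap.toMatrix c b (φ Y).1 * LinearMap.toMatrix b c (φ Z).2
      rw [hφ2, LinearMap.toMatrix_comp b b c, LinearMap.toMatrix_comp b c b, Matrix.mul_assoc]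

/-- the classification -/
theorem classification [FiniteDimensional ℂ W] (hs : IsSimpleTriple B) :
    (∃ n, 1 ≤ n ∧ IsoMat B n) ∨ ∃ p q, 1 ≤ p ∧ p ≤ q ∧ IsoPair B p q := by
  obtain ⟨e, f, hp⟩ := h.exists_minPair hs
  have nd := h.nondeg hs
  by_cases hc : ∀ p ∈ Fx B e f, ∀ u, bf B u (B (B p f u) p f) = 0
  · right
    have h0 := h.no_cube nd hp hc e hp.idem.efe
    have hker : e ∈ LinearMap.ker (h.pi nd hp.symm) := by
      rw [LinearMap.mem_ker]
      refine LinearMap.ext fun q => Subtype.ext ?_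
      change B e q f = 0
      have := h0 q q.2 e
      rwa [hp.idem.efe] at this
    have htop := (h.ker_sup nd hp hs).resolve_left (by
      intro hbot
      have : e ∈ (⊥ : Submodule ℂ W) := by
        rw [← hbot]; exact Submodule.mem_sup_right hker
      exact hp.ne ((Submodule.mem_bot ℂ).1 this))
    obtain ⟨p, q, hp1, hq1, hpq⟩ := h.isoPair_of_top hs hp htop
    rcases le_total p q with hle | hle
    · exact ⟨p, q, hp1, hle, hpq⟩
    · exact ⟨q, p, hq1, hle, hpq.swap⟩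
  · left
    push Not at hc
    obtain ⟨p, hpp, u, hu⟩ := hc
    obtain ⟨t, ht⟩ := h.exists_tripotent nd hp hpp hu
    exact h.isoMat_of_tripotent hs ht

end Ids

end Pool.Agent.P09.Triple
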