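import Pool.Agent.P09.Triple.Basic

/-!
# The invariant trace form
-/

set_option autoImplicit false

namespace Pool.Agent.P09.Triple

universe u

variable {W : Type u} [AddCommGroup W] [Module ℂ W]

/-- right multiplications `x ↦ B x y z` -/
def Rr (B : W →ₗ[ℂ] W →ₗ[ℂ] W →ₗ[ℂ] W) : W →ₗ[ℂ] W →ₗ[ℂ] W →ₗ[ℂ] W :=
  LinearMap.lflip.comp B.flip

@[simp] lemma Rr_apply (B : W →ₗ[ℂ] W →ₗ[ℂ] W →ₗ[ℂ] W) (x y z : W) : Rr B y z x = B x y z := rfl

/-- left multiplication as an endomorphism -/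
def Lo (B : W →ₗ[ℂ] W →ₗ[ℂ] W →ₗ[ℂ] W) (x y : W) : Module.End ℂ W := B x y

/-- right multiplication as an endomorphism -/
def Ro (B : W →ₗ[ℂ] W →ₗ[ℂ] W →ₗ[ℂ] W) (y z : W) : Module.End ℂ W := Rr B y z

@[simp] lemma Lo_apply (B : W →ₗ[ℂ] W →ₗ[ℂ] W →ₗ[ℂ] W) (x y z : W) : Lo B x y z = B x y z := rfl
@[simp] lemma Ro_apply (B : W →ₗ[ℂ] W →ₗ[ℂ] W →ₗ[ℂ] W) (x y z : W) : Ro B y z x = B x y z := rfl

namespace Ids

variable {B : W →ₗ[ℂ] W →ₗ[ℂ] W →ₗ[ℂ] W} (h : Ids B)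
include h

lemma opLL1 (x y z w : W) :
    Lo B x y * Lo B z w + Lo B x w * Lo B z y = Lo B (B x y z) w + Lo B (B x w z) y := by
  ext v
  simpa using h.I3 x y z w v

lemma opLL2 (x y z v : W) :
    Lo B x y * Lo B z v + Lo B z y * Lo B x v = Lo B x (B y z v) + Lo B z (B y x v) := by
  ext u
  simpa using h.I1 x y z v u

lemma opRR1 (y z w v : W) :
    Ro B y (B z w v) + Ro B w (B z y v) = Ro B w v * Ro B y z + Ro B y v * Ro B w z := by
  ext x
  simpa using h.I3 x y z w v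

lemma opRR2 (y z w v : W) :
    Ro B (B y z v) w + Ro B (B y w v) z = Ro B v w * Ro B y z + Ro B v z * Ro B y w := by
  ext x
  simpa using h.I2 x y z v w

lemma opLR (x y w z : W) :
    Lo B x y * Ro B w z - Ro B w z * Lo B x y =
      Lo B (B x y z) w - Lo B x (B y z w) + Ro B (B y x w) z - Ro B y (B x w z) := by
  ext u
  simpa using h.LR x y u w z

lemma opLL (x y z : W) : Lo B x y * Lo B z y = Lo B (B x y z) y := by
  ext v
  simpa using h.i3 x y z v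

lemma opLL' (x y v : W) : Lo B x y * Lo B x v = Lo B x (B y x v) := by
  ext u
  simpa using h.i1 x y u v

lemma opRR (y z v : W) : Ro B y v * Ro B y z = Ro B y (B z y v) := by
  ext x
  simpa using (h.i3 x y z v).symm

lemma opRR' (y z v : W) : Ro B v z * Ro B y z = Ro B (B y z v) z := by
  ext x
  simpa using (h.i2 x y z v).symm

end Ids

/-- trace of the left multiplications -/
noncomputable def tauL (B : W →ₗ[ℂ] W →ₗ[ℂ] W →ₗ[ℂ] W) : W →ₗ[ℂ] W →ₗ[ℂ] ℂ :=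
  B.compr₂ (LinearMap.trace ℂ W)

/-- trace of the right multiplications -/
noncomputable def tauR (B : W →ₗ[ℂ] W →ₗ[ℂ] W →ₗ[ℂ] W) : W →ₗ[ℂ] W →ₗ[ℂ] ℂ :=
  (Rr B).compr₂ (LinearMap.trace ℂ W)

lemma tauL_apply (B : W →ₗ[ℂ] W →ₗ[ℂ] W →ₗ[ℂ] W) (x y : W) :
    tauL B x y = LinearMap.trace ℂ W (Lo B x y) := rfl

lemma tauR_apply (B : W →ₗ[ℂ] W →ₗ[ℂ] W →ₗ[ℂ] W) (x y : W) :
    tauR B x y = LinearMap.trace ℂ W (Ro B x y) := rfl

/-- the form `m(x,y) = tr (L(x,y) + R(y,x))` -/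
noncomputable def mf (B : W →ₗ[ℂ] W →ₗ[ℂ] W →ₗ[ℂ] W) : W →ₗ[ℂ] W →ₗ[ℂ] ℂ :=
  tauL B + (tauR B).flip

/-- the symmetric form -/
noncomputable def bf (B : W →ₗ[ℂ] W →ₗ[ℂ] W →ₗ[ℂ] W) : W →ₗ[ℂ] W →ₗ[ℂ] ℂ :=
  mf B + (mf B).flip

lemma mf_apply (B : W →ₗ[ℂ] W →ₗ[ℂ] W →ₗ[ℂ] W) (x y : W) :
    mf B x y = tauL B x y + tauR B y x := rfl

lemma bf_apply (B : W →ₗ[ℂ] W →ₗ[ℂ] W →ₗ[ℂ] W) (x y : W) :
    bf B x y = mf B x y + mf B y x := rfl

lemma bf_comm (B : W →ₗ[ℂ] W →ₗ[ℂ] W →ₗ[ℂ] W) (x y : W) : bf B x y = bf B y x := by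
  rw [bf_apply, bf_apply, add_comm]

namespace Ids

variable {B : W →ₗ[ℂ] W →ₗ[ℂ] W →ₗ[ℂ] W} (h : Ids B)
include h

lemma trT2 (x y z w : W) :
    tauL B (B x y z) w - tauL B x (B y z w) + tauR B (B y x w) z - tauR B y (B x w z) = 0 := by
  have e := congrArg (LinearMap.trace ℂ W) (h.opLR x y w z)
  rw [map_sub, LinearMap.trace_mul_comm, sub_self] at e
  simp only [map_sub, map_add] at e
  exact e.symm

lemma trLL (x y z w : W) :
    tauL B (B x y z) w + tauL B (B x w z) y = tauL B x (B w z y) + tauL B z (B w x y) := by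
  have e1 := congrArg (LinearMap.trace ℂ W) (h.opLL1 x y z w)
  have e2 := congrArg (LinearMap.trace ℂ W) (h.opLL2 x w z y)
  simp only [map_add] at e1 e2
  have e3 := LinearMap.trace_mul_comm ℂ (Lo B x y) (Lo B z w)
  simp only [tauL_apply]
  linear_combination e2 - e1 + e3

lemma trRR (x y z w : W) :
    tauR B y (B x w z) + tauR B w (B x y z) = tauR B (B y x w) z + tauR B (B y z w) x := by
  have e1 := congrArg (LinearMap.trace ℂ W) (h.opRR1 y x w z)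
  have e2 := congrArg (LinearMap.trace ℂ W) (h.opRR2 y x z w)
  simp only [map_add] at e1 e2
  have e3 := LinearMap.trace_mul_comm ℂ (Ro B y z) (Ro B w x)
  simp only [tauR_apply]
  linear_combination e1 - e2 + e3

lemma mf1 (x y z w : W) : mf B (B x y z) w = mf B x (B y z w) := by
  have e1 := h.trT2 x y z w
  have e2 := h.trRR x y z w
  simp only [mf_apply]
  linear_combination e1 + e2

lemma mf2 (x y z w : W) : mf B (B x y z) w = mf B z (B w x y) := by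
  have e1 := h.trT2 x w z y
  have e2 := h.trLL x y z w
  simp only [mf_apply]
  linear_combination e2 - e1

/-- the invariance of the form -/
lemma bf_assoc (a b c d : W) : bf B (B a b c) d = bf B a (B b c d) := by
  rw [bf_apply, bf_apply, h.mf1 a b c d, h.mf2 b c d a]

lemma bf_cyc (a b c d : W) : bf B (B a b c) d = bf B (B b c d) a := by
  rw [h.bf_assoc, bf_comm]

end Ids

end Pool.Agent.P09.Triple
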