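import Pool.Agent.P09.Triple.Nil

/-!
# Idempotent pairs
-/

set_option autoImplicit false

namespace Pool.Agent.P09.Triple

universe u

open Polynomial

variable {W : Type u} [AddCommGroup W] [Module ℂ W]

/-- a polynomial without constant term which is a nonzero idempotent at `T` -/
lemma exists_idem_poly [FiniteDimensional ℂ W] (T : Module.End ℂ W) (hT : ¬ IsNilpotent T) :
    ∃ q : ℂ[X], aeval T (X * q * (X * q)) = aeval T (X * q) ∧ aeval T (X * q) ≠ 0 := by
  have hm : minpoly ℂ T ≠ 0 := minpoly.ne_zero (Algebra.IsIntegral.isIntegral T)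
  obtain ⟨g, hg, hnd⟩ := (minpoly ℂ T).exists_eq_pow_rootMultiplicity_mul_and_not_dvd hm 0
  set k := (minpoly ℂ T).rootMultiplicity 0
  rw [C_0, sub_zero] at hg hnd
  have hcop : IsCoprime (X ^ (k + 1)) g :=
    IsCoprime.pow_left ((Irreducible.coprime_iff_not_dvd irreducible_X).2 hnd)
  obtain ⟨a, b, hab⟩ := hcop
  have h0 : aeval T (X ^ k * g) = 0 := by rw [← hg]; exact minpoly.aeval ℂ T
  refine ⟨a * X ^ k, ?_, ?_⟩
  · have e : X * (a * X ^ k) * (X * (a * X ^ k)) = X * (a * X ^ k) - (X ^ k * g) * (a * X * b) := by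
      have : X * (a * X ^ k) = 1 - b * g := by rw [← hab]; ring
      calc X * (a * X ^ k) * (X * (a * X ^ k)) = X * (a * X ^ k) * (1 - b * g) := by rw [← this]
        _ = _ := by ring
    rw [e, map_sub, map_mul (aeval T) (X ^ k * g), h0, zero_mul, sub_zero]
  · intro h1
    apply hT
    refine ⟨k, ?_⟩
    have e : (X : ℂ[X]) ^ k = X ^ k * (X * (a * X ^ k)) + (X ^ k * g) * b := by
      have : X * (a * X ^ k) = 1 - b * g := by rw [← hab]; ring
      rw [this]; ring
    have e2 := congrArg (aeval T) e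
    rw [map_add, map_mul (aeval T) (X ^ k), h1, map_mul (aeval T) (X ^ k * g), h0] at e2
    simpa using e2

/-- idempotent pairs -/
structure IdemPair (B : W →ₗ[ℂ] W →ₗ[ℂ] W →ₗ[ℂ] W) (e f : W) : Prop where
  efe : B e f e = e
  fef : B f e f = f

namespace Ids

variable {B : W →ₗ[ℂ] W →ₗ[ℂ] W →ₗ[ℂ] W} (h : Ids B)
include h

lemma Lo_pow (x y : W) (k : ℕ) : Lo B ((Lo B x y ^ k) x) y = Lo B x y ^ (k + 1) := by
  induction k with
  | zero => simp
  | succ k ih =>
    have e := h.opLL x y ((Lo B x y ^ k) x)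
    rw [ih] at e
    rw [pow_succ' _ (k + 1), e, pow_succ' (Lo B x y) k, Module.End.mul_apply]
    rfl

lemma Lo_pow' (x y : W) (k : ℕ) : Lo B y ((Lo B x y ^ k) x) = Lo B y x ^ (k + 1) := by
  induction k with
  | zero => simp
  | succ k ih =>
    have e := h.opLL' y x ((Lo B x y ^ k) x)
    rw [ih] at e
    rw [pow_succ' _ (k + 1), e, pow_succ' (Lo B x y) k, Module.End.mul_apply]
    rfl

lemma Ro_pow (x y : W) (k : ℕ) : Ro B y ((Lo B x y ^ k) x) = Ro B y x ^ (k + 1) := by
  induction k with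
  | zero => simp
  | succ k ih =>
    have e := h.opRR y x ((Lo B x y ^ k) x)
    rw [ih] at e
    rw [pow_succ _ (k + 1), e, pow_succ' (Lo B x y) k, Module.End.mul_apply]
    rfl

lemma Ro_pow' (x y : W) (k : ℕ) : Ro B ((Lo B x y ^ k) x) y = Ro B x y ^ (k + 1) := by
  induction k with
  | zero => simp
  | succ k ih =>
    have e := h.opRR' x y ((Lo B x y ^ k) x)
    rw [ih] at e
    rw [pow_succ _ (k + 1), e, pow_succ' (Lo B x y) k, Module.End.mul_apply]
    rfl

lemma nilp_of_nilp {x y : W} (hn : IsNilpotent (Lo B x y)) :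
    IsNilpotent (Lo B y x) ∧ IsNilpotent (Ro B y x) ∧ IsNilpotent (Ro B x y) := by
  obtain ⟨k, hk⟩ := hn
  have h1 := h.Lo_pow' x y k
  have h2 := h.Ro_pow x y k
  have h3 := h.Ro_pow' x y k
  rw [hk] at h1 h2 h3
  refine ⟨⟨k + 1, ?_⟩, ⟨k + 1, ?_⟩, ⟨k + 1, ?_⟩⟩
  · rw [← h1]; ext u; simp
  · rw [← h2]; ext u; simp
  · rw [← h3]; ext u; simp

lemma Lo_aeval (x y : W) (r : ℂ[X]) :
    Lo B (aeval (Lo B x y) r x) y = aeval (Lo B x y) (X * r) := by
  induction r using Polynomial.induction_on' with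
  | add p q hp hq =>
    rw [mul_add, map_add, map_add, ← hp, ← hq]
    ext u; simp
  | monomial n a =>
    rw [← C_mul_X_pow_eq_monomial, mul_left_comm, ← pow_succ', map_mul, map_mul, aeval_C,
      map_pow, map_pow, aeval_X, ← h.Lo_pow]
    ext u; simp

lemma exists_idem [FiniteDimensional ℂ W] {x y : W} (hn : ¬ IsNilpotent (Lo B x y)) :
    ∃ q : ℂ[X], aeval (Lo B x y) q x ≠ 0 ∧
      B (aeval (Lo B x y) q x) y (aeval (Lo B x y) q x) = aeval (Lo B x y) q x ∧
      Lo B (aeval (Lo B x y) q x) y = aeval (Lo B x y) q * Lo B x y := by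
  obtain ⟨q, hq1, hq2⟩ := exists_idem_poly (Lo B x y) hn
  set T := Lo B x y
  have hL : Lo B (aeval T (X * q * q) x) y = aeval T (X * q) := by
    rw [h.Lo_aeval, ← hq1]
    congr 1
    ring
  refine ⟨X * q * q, ?_, ?_, ?_⟩
  · intro h0
    rw [h0] at hL
    apply hq2
    rw [← hL]
    ext u; simp
  · rw [← Lo_apply, hL, ← Module.End.mul_apply, ← map_mul]
    have : X * q * (X * q * q) = X * q * (X * q) * q := by ring
    rw [this, map_mul, hq1, ← map_mul]
  · have e := h.Lo_aeval x y (X * q * q)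
    rw [e, mul_comm X, map_mul, aeval_X]

lemma idemPair_of_idem {e y : W} (he : B e y e = e) : IdemPair B e (B y e y) := by
  have e1 : B y e (B y e y) = B y e y := by
    have := h.i1 y e y e
    rw [he] at this
    exact this
  refine ⟨?_, ?_⟩
  · have := h.i1 e y e y
    rw [← this, he, he]
  · have := h.i3 y e y (B y e y)
    rw [← this, e1, e1]

lemma IdemPair_idem {e f : W} (hp : IdemPair B e f) :
    IsIdempotentElem (Lo B e f) ∧ IsIdempotentElem (Ro B f e) ∧ IsIdempotentElem (Lo B f e) ∧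
      IsIdempotentElem (Ro B e f) := by
  refine ⟨?_, ?_, ?_, ?_⟩
  · have := h.opLL e f e
    rwa [hp.efe] at this
  · have := h.opRR f e e
    rwa [hp.efe] at this
  · have := h.opLL f e f
    rwa [hp.fef] at this
  · have := h.opRR e f f
    rwa [hp.fef] at this

omit h in
lemma trace_idem [FiniteDimensional ℂ W] {P : Module.End ℂ W} (hP : IsIdempotentElem P) :
    LinearMap.trace ℂ W P = (Module.finrank ℂ (LinearMap.range P) : ℂ) :=
  (LinearMap.IsIdempotentElem.isProj_range P hP).trace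

lemma bf_idem_ne_zero [FiniteDimensional ℂ W] {e f : W} (hp : IdemPair B e f) (he : e ≠ 0) :
    bf B e f ≠ 0 := by
  obtain ⟨i1, i2, i3, i4⟩ := h.IdemPair_idem hp
  rw [bf_apply, mf_apply, mf_apply, tauL_apply, tauL_apply, tauR_apply, tauR_apply,
    trace_idem i1, trace_idem i2, trace_idem i3, trace_idem i4]
  have h0 : 0 < Module.finrank ℂ (LinearMap.range (Lo B e f)) := by
    rw [Module.finrank_pos_iff_exists_ne_zero]
    refine ⟨⟨e, e, ?_⟩, ?_⟩
    · exact hp.efe
    · intro h1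
      exact he (congrArg Subtype.val h1)
  norm_cast
  omega

end Ids

end Pool.Agent.P09.Triple
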