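import Pool.Agent.P09.Triple.Solv

/-!
# The Lie algebra of inner derivations of the Jordan product is solvable if all multiplications
are nilpotent
-/

set_option autoImplicit false

namespace Pool.Agent.P09.Triple

universe u

attribute [local instance 100] LieRing.ofAssociativeRing

variable {W : Type u} [AddCommGroup W] [Module ℂ W]

/-- Jordan multiplication operators -/
def Do (B : W →ₗ[ℂ] W →ₗ[ℂ] W →ₗ[ℂ] W) (x y : W) : Module.End ℂ W := Lo B x y + Ro B y x

@[simp] lemma Do_apply (B : W →ₗ[ℂ] W →ₗ[ℂ] W →ₗ[ℂ] W) (x y z : W) : Do B x y z = J B x y z := rfl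

lemma J_comm (B : W →ₗ[ℂ] W →ₗ[ℂ] W →ₗ[ℂ] W) (x y z : W) : J B x y z = J B z y x := by
  rw [J, J, add_comm]

/-- the pairs `(D(x,y), -D(y,x))` -/
def dl (B : W →ₗ[ℂ] W →ₗ[ℂ] W →ₗ[ℂ] W) :
    W →ₗ[ℂ] W →ₗ[ℂ] (Module.End ℂ W × Module.End ℂ W) :=
  LinearMap.mk₂ ℂ (fun x y => (Do B x y, - Do B y x))
    (by intro a b c; ext v <;> simp [J] <;> abel)
    (by intro a b c; ext v <;> simp [J])
    (by intro a b c; ext v <;> simp [J] <;> abel)
    (by intro a b c; ext v <;> simp [J])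

@[simp] lemma dl_fst (B : W →ₗ[ℂ] W →ₗ[ℂ] W →ₗ[ℂ] W) (x y : W) : (dl B x y).1 = Do B x y := rfl
@[simp] lemma dl_snd (B : W →ₗ[ℂ] W →ₗ[ℂ] W →ₗ[ℂ] W) (x y : W) : (dl B x y).2 = - Do B y x := rfl

/-- the span of the pairs -/
def Dsub (B : W →ₗ[ℂ] W →ₗ[ℂ] W →ₗ[ℂ] W) : Submodule ℂ (Module.End ℂ W × Module.End ℂ W) :=
  Submodule.span ℂ (Set.range fun p : W × W => dl B p.1 p.2)

lemma dl_mem (B : W →ₗ[ℂ] W →ₗ[ℂ] W →ₗ[ℂ] W) (x y : W) : dl B x y ∈ Dsub B :=
  Submodule.subset_span ⟨(x, y), rfl⟩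

namespace Ids

variable {B : W →ₗ[ℂ] W →ₗ[ℂ] W →ₗ[ℂ] W} (h : Ids B)
include h

lemma opD (x y z w : W) :
    Do B x y * Do B z w - Do B z w * Do B x y = Do B (J B x y z) w - Do B z (J B y x w) := by
  ext u
  simpa using h.jordan x y z w u

lemma der {T : Module.End ℂ W × Module.End ℂ W} (hT : T ∈ Dsub B) (z w : W) :
    ⁅T, dl B z w⁆ = dl B (T.1 z) w + dl B z (T.2 w) := by
  induction hT using Submodule.span_induction with
  | mem T hT =>
    obtain ⟨⟨x, y⟩, rfl⟩ := hT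
    have e1 := h.opD x y z w
    have e2 := h.opD y x w z
    rw [Ring.lie_def]
    refine Prod.ext ?_ ?_
    · simp only [Prod.fst_sub, Prod.fst_mul, dl_fst, Prod.fst_add, dl_snd, LinearMap.neg_apply,
        map_neg, Do_apply, Prod.fst_neg]
      rw [e1]
      abel
    · simp only [Prod.snd_sub, Prod.snd_mul, dl_fst, Prod.snd_add, dl_snd, LinearMap.neg_apply,
        map_neg, Do_apply, Prod.snd_neg, neg_mul_neg]
      rw [e2]
      abel
  | zero => simp
  | add a b _ _ ha hb => 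
    rw [add_lie, ha, hb]
    simp only [Prod.fst_add, Prod.snd_add, LinearMap.add_apply, map_add]
    abel
  | smul c a _ ha => 
    rw [smul_lie, ha]
    simp

lemma lie_mem_Dsub {S T : Module.End ℂ W × Module.End ℂ W} (hS : S ∈ Dsub B) (hT : T ∈ Dsub B) :
    ⁅S, T⁆ ∈ Dsub B := by
  induction hT using Submodule.span_induction with
  | mem T hT =>
    obtain ⟨⟨x, y⟩, rfl⟩ := hT
    rw [h.der hS]
    exact add_mem (dl_mem B _ _) (dl_mem B _ _)
  | zero => simp
  | add a b _ _ ha hb => rw [lie_add]; exact add_mem ha hb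
  | smul c a _ ha => rw [lie_smul]; exact Submodule.smul_mem _ _ ha

/-- the Lie algebra of the pairs -/
def DD : LieSubalgebra ℂ (Module.End ℂ W × Module.End ℂ W) :=
  { Dsub B with lie_mem' := fun hS hT => h.lie_mem_Dsub hS hT }

lemma mem_DD {T : Module.End ℂ W × Module.End ℂ W} : T ∈ h.DD ↔ T ∈ Dsub B := Iff.rfl

/-- the representation on `W × W × DD` -/
noncomputable def rep : h.DD →ₗ⁅ℂ⁆ Module.End ℂ (W × W × h.DD) where
  toFun T := (T : Module.End ℂ W × Module.End ℂ W).1.prodMap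
    ((T : Module.End ℂ W × Module.End ℂ W).2.prodMap (LieAlgebra.ad ℂ h.DD T))
  map_add' S T := by
    refine LinearMap.ext fun ⟨a, b, U⟩ => ?_
    refine Prod.ext rfl (Prod.ext rfl ?_)
    exact add_lie S T U
  map_smul' c T := by
    refine LinearMap.ext fun ⟨a, b, U⟩ => ?_
    refine Prod.ext rfl (Prod.ext rfl ?_)
    exact smul_lie c T U
  map_lie' {S T} := by
    refine LinearMap.ext fun ⟨a, b, U⟩ => ?_
    refine Prod.ext rfl (Prod.ext rfl ?_)
    exact lie_lie S T U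

lemma rep_apply (T : h.DD) : h.rep T = (T : Module.End ℂ W × Module.End ℂ W).1.prodMap
    ((T : Module.End ℂ W × Module.End ℂ W).2.prodMap (LieAlgebra.ad ℂ h.DD T)) := rfl

lemma rep_injective : Function.Injective h.rep := by
  intro S T hST
  apply Subtype.ext
  refine Prod.ext ?_ ?_
  · ext a
    exact congrArg (fun f : Module.End ℂ (W × W × h.DD) => (f (a, 0, 0)).1) hST
  · ext a
    exact congrArg (fun f : Module.End ℂ (W × W × h.DD) => (f (0, a, 0)).2.1) hST

/-- `x' ↦ dl x' y` -/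
noncomputable def g2 (y : W) : W →ₗ[ℂ] h.DD where
  toFun x := ⟨dl B x y, dl_mem B x y⟩
  map_add' a b := Subtype.ext (by simp)
  map_smul' a b := Subtype.ext (by simp)

/-- `y' ↦ dl x y'` -/
noncomputable def g2' (x : W) : W →ₗ[ℂ] h.DD where
  toFun y := ⟨dl B x y, dl_mem B x y⟩
  map_add' a b := Subtype.ext (by simp)
  map_smul' a b := Subtype.ext (by simp)

/-- `U ↦ [T,U]₁ x` -/
noncomputable def g1 (T : h.DD) (x : W) : h.DD →ₗ[ℂ] W where
  toFun U := ((⁅T, U⁆ : h.DD) : Module.End ℂ W × Module.End ℂ W).1 x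
  map_add' a b := by rw [lie_add]; rfl
  map_smul' a b := by rw [lie_smul]; rfl

/-- `U ↦ [T,U]₂ y` -/
noncomputable def g1' (T : h.DD) (y : W) : h.DD →ₗ[ℂ] W where
  toFun U := ((⁅T, U⁆ : h.DD) : Module.End ℂ W × Module.End ℂ W).2 y
  map_add' a b := by rw [lie_add]; rfl
  map_smul' a b := by rw [lie_smul]; rfl

lemma der' (T : h.DD) (z w : W) :
    ((⁅T, ⟨dl B z w, dl_mem B z w⟩⁆ : h.DD) : Module.End ℂ W × Module.End ℂ W) =
      dl B ((T : Module.End ℂ W × Module.End ℂ W).1 z) w +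
        dl B z ((T : Module.End ℂ W × Module.End ℂ W).2 w) :=
  h.der T.2 z w

lemma trace_ad [FiniteDimensional ℂ W] (x y : W) (T : h.DD) :
    LinearMap.trace ℂ h.DD (LieAlgebra.ad ℂ h.DD ⟨dl B x y, dl_mem B x y⟩ *
      LieAlgebra.ad ℂ h.DD T) =
    - (LinearMap.trace ℂ W (Do B x y * (T : Module.End ℂ W × Module.End ℂ W).1) +
        LinearMap.trace ℂ W (Do B x ((T : Module.End ℂ W × Module.End ℂ W).2 y))) +
      (LinearMap.trace ℂ W (Do B y ((T : Module.End ℂ W × Module.End ℂ W).1 x)) +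
        LinearMap.trace ℂ W (Do B y x * (T : Module.End ℂ W × Module.End ℂ W).2)) := by
  have e0 : LieAlgebra.ad ℂ h.DD ⟨dl B x y, dl_mem B x y⟩ * LieAlgebra.ad ℂ h.DD T =
      - (h.g2 y ∘ₗ h.g1 T x) - (h.g2' x ∘ₗ h.g1' T y) := by
    refine LinearMap.ext fun U => ?_
    apply Subtype.ext
    have e := h.der' ⁅T, U⁆ x y
    have e1 : (LieAlgebra.ad ℂ h.DD ⟨dl B x y, dl_mem B x y⟩ * LieAlgebra.ad ℂ h.DD T) U =
        - ⁅⁅T, U⁆, (⟨dl B x y, dl_mem B x y⟩ : h.DD)⁆ := by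
      rw [lie_skew]; rfl
    rw [e1]
    change - ((⁅⁅T, U⁆, (⟨dl B x y, dl_mem B x y⟩ : h.DD)⁆ : h.DD) :
      Module.End ℂ W × Module.End ℂ W) = _
    rw [e, neg_add']
    rfl
  have t1 : h.g1 T x ∘ₗ h.g2 y = Do B x y * (T : Module.End ℂ W × Module.End ℂ W).1 +
      Do B x ((T : Module.End ℂ W × Module.End ℂ W).2 y) := by
    refine LinearMap.ext fun z => ?_
    have e := congrArg (fun p : Module.End ℂ W × Module.End ℂ W => p.1 x) (h.der' T z y)
    change ((⁅T, (⟨dl B z y, dl_mem B z y⟩ : h.DD)⁆ : h.DD) :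
      Module.End ℂ W × Module.End ℂ W).1 x = _
    refine e.trans ?_
    simp only [Prod.fst_add, dl_fst, LinearMap.add_apply, Do_apply, Module.End.mul_apply]
    rw [J_comm, J_comm B z]
  have t2 : h.g1' T y ∘ₗ h.g2' x = - Do B y ((T : Module.End ℂ W × Module.End ℂ W).1 x) -
      Do B y x * (T : Module.End ℂ W × Module.End ℂ W).2 := by
    refine LinearMap.ext fun z => ?_
    have e := congrArg (fun p : Module.End ℂ W × Module.End ℂ W => p.2 y) (h.der' T x z)
    change ((⁅T, (⟨dl B x z, dl_mem B x z⟩ : h.DD)⁆ : h.DD) :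
      Module.End ℂ W × Module.End ℂ W).2 y = _
    refine e.trans ?_
    simp only [Prod.snd_add, dl_snd, LinearMap.add_apply, LinearMap.sub_apply,
      LinearMap.neg_apply, Do_apply, Module.End.mul_apply]
    rw [J_comm, J_comm B _ x y]
    abel
  rw [e0, map_sub, map_neg, LinearMap.trace_comp_comm', LinearMap.trace_comp_comm' _ (h.g2' x),
    t1, t2]
  simp only [map_add, map_sub, map_neg]
  ring

lemma rep_mul (S T : h.DD) : h.rep S * h.rep T =
    ((S : Module.End ℂ W × Module.End ℂ W).1 * (T : Module.End ℂ W × Module.End ℂ W).1).prodMap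
      (((S : Module.End ℂ W × Module.End ℂ W).2 * (T : Module.End ℂ W × Module.End ℂ W).2).prodMap
        (LieAlgebra.ad ℂ h.DD S * LieAlgebra.ad ℂ h.DD T)) := rfl

instance finDD [FiniteDimensional ℂ W] : FiniteDimensional ℂ h.DD :=
  inferInstanceAs (FiniteDimensional ℂ (Dsub B))

lemma rep_trace [FiniteDimensional ℂ W] (hz : ∀ x y, LinearMap.trace ℂ W (Do B x y) = 0)
    (S T : h.DD) : LinearMap.trace ℂ (W × W × h.DD) (h.rep S * h.rep T) = 0 := by
  obtain ⟨S, hS⟩ := S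
  have hS' : S ∈ Dsub B := hS
  induction hS' using Submodule.span_induction with
  | mem S hS' =>
    obtain ⟨⟨x, y⟩, rfl⟩ := hS'
    rw [rep_mul, LinearMap.trace_prodMap', LinearMap.trace_prodMap']
    have e := h.trace_ad x y T
    have e' : LinearMap.trace ℂ h.DD (LieAlgebra.ad ℂ h.DD ⟨dl B x y, hS⟩ *
      LieAlgebra.ad ℂ h.DD T) = _ := e
    simp only at e' ⊢
    rw [e', hz, hz]
    simp only [dl_fst, dl_snd, neg_mul, map_neg]
    ring
  | zero =>
    have : (⟨0, hS⟩ : h.DD) = 0 := rfl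
    rw [this, map_zero, zero_mul, map_zero]
  | add a b ha hb iha ihb =>
    have ha' : a ∈ h.DD := ha
    have hb' : b ∈ h.DD := hb
    have : (⟨a + b, hS⟩ : h.DD) = ⟨a, ha'⟩ + ⟨b, hb'⟩ := rfl
    rw [this, map_add, add_mul, map_add, iha ha', ihb hb', add_zero]
  | smul c a ha iha =>
    have ha' : a ∈ h.DD := ha
    have : (⟨c • a, hS⟩ : h.DD) = c • ⟨a, ha'⟩ := rfl
    rw [this, map_smul, smul_mul_assoc, map_smul, iha ha', smul_zero]

lemma solvable_DD [FiniteDimensional ℂ W] (hz : ∀ x y, LinearMap.trace ℂ W (Do B x y) = 0) :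
    LieAlgebra.IsSolvable h.DD := by
  have h1 : LieAlgebra.IsSolvable h.rep.range := by
    apply solvable_of_trace
    rintro _ ⟨S, rfl⟩ _ ⟨T, rfl⟩
    exact h.rep_trace hz S T
  have hinj : Function.Injective h.rep.rangeRestrict := by
    intro S T hST
    apply h.rep_injective
    exact congrArg Subtype.val hST
  exact hinj.lieAlgebra_isSolvable

end Ids

end Pool.Agent.P09.Triple
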