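import Pool.Agent.P09.Triple.Class

/-!
# The models are simple, satisfy the identities and are pairwise non-isomorphic
-/

set_option autoImplicit false

namespace Pool.Agent.P09.Triple

universe u

variable {W : Type u} [AddCommGroup W] [Module ℂ W] {B : W →ₗ[ℂ] W →ₗ[ℂ] W →ₗ[ℂ] W}

lemma IsoMat.ids {n : ℕ} (hB : IsoMat B n) : Ids B := by
  obtain ⟨φ, hφ⟩ := hB
  refine ⟨?_, ?_, ?_⟩ <;> intro X Y Z V <;> apply φ.injective <;>
    simp only [hφ, Matrix.mul_assoc]

lemma IsoPair.ids {p q : ℕ} (hB : IsoPair B p q) : Ids B := by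
  obtain ⟨φ, hφ⟩ := hB
  refine ⟨?_, ?_, ?_⟩ <;> intro X Y Z V <;> apply φ.injective <;>
    simp only [hφ, Matrix.mul_assoc]

lemma IsoMat.simple {n : ℕ} (hn : 1 ≤ n) (hB : IsoMat B n) : IsSimpleTriple B := by
  classical
  obtain ⟨φ, hφ⟩ := hB
  have : NeZero n := ⟨by omega⟩
  constructor
  · intro h0
    have h1 := hφ (φ.symm 1) (φ.symm 1) (φ.symm 1)
    rw [h0] at h1
    simp at h1
  · intro I hI
    by_cases hbot : I = ⊥
    · exact Or.inl hbot
    right
    obtain ⟨x, hx, hx0⟩ := Submodule.exists_mem_ne_zero_of_ne_bot hbot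
    have hM : φ x ≠ 0 := fun h0 => hx0 (by simpa using h0)
    obtain ⟨i, j, hij⟩ : ∃ i j, φ x i j ≠ 0 := by
      by_contra hcon
      push Not at hcon
      exact hM (by ext i j; simpa using hcon i j)
    have key : ∀ a b, φ.symm (Matrix.single a b 1) ∈ I := by
      intro a b
      have h1 := (hI x hx (φ.symm (Matrix.single a i 1)) (φ.symm (Matrix.single j b 1))).2.1
      have h2 : B (φ.symm (Matrix.single a i 1)) x (φ.symm (Matrix.single j b 1)) =
          φ x i j • φ.symm (Matrix.single a b 1) := by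
        apply φ.injective
        rw [hφ]
        simp only [LinearEquiv.apply_symm_apply, map_smul]
        rw [Matrix.single_mul_mul_single]
        simp [Matrix.smul_single]
      rw [h2] at h1
      exact (Submodule.smul_mem_iff _ hij).1 h1
    rw [eq_top_iff]
    intro y _
    rw [← φ.symm_apply_apply y, Matrix.matrix_eq_sum_single (φ y), map_sum]
    refine sum_mem fun a _ => ?_
    rw [map_sum]
    refine sum_mem fun b _ => ?_
    have : Matrix.single a b (φ y a b) = φ y a b • Matrix.single a b (1 : ℂ) := by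
      simp [Matrix.smul_single]
    rw [this, map_smul]
    exact Submodule.smul_mem _ _ (key a b)

lemma pair_aux {p q : ℕ} (hp : 1 ≤ p) (hq : 1 ≤ q)
    (φ : W ≃ₗ[ℂ] Matrix (Fin p) (Fin q) ℂ × Matrix (Fin q) (Fin p) ℂ)
    (hφ : ∀ X Y Z, φ (B X Y Z) = ((φ X).1 * (φ Y).2 * (φ Z).1, (φ X).2 * (φ Y).1 * (φ Z).2))
    (I : Submodule ℂ W) (hI : IsTripIdeal B I) (x : W) (hx : x ∈ I) (hx2 : (φ x).2 ≠ 0) :
    I = ⊤ := by
  classical
  have : NeZero p := ⟨by omega⟩
  have : NeZero q := ⟨by omega⟩
  obtain ⟨j, i, hij⟩ : ∃ j i, (φ x).2 j i ≠ 0 := by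
    by_contra hcon
    push Not at hcon
    exact hx2 (by ext i j; simpa using hcon i j)
  have key1 : ∀ a b, φ.symm (Matrix.single a b 1, 0) ∈ I := by
    intro a b
    have h1 := (hI x hx (φ.symm (Matrix.single a j 1, 0)) (φ.symm (Matrix.single i b 1, 0))).2.1
    have h2 : B (φ.symm (Matrix.single a j 1, 0)) x (φ.symm (Matrix.single i b 1, 0)) =
        (φ x).2 j i • φ.symm (Matrix.single a b 1, 0) := by
      apply φ.injective
      rw [hφ]
      simp only [LinearEquiv.apply_symm_apply, map_smul]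
      rw [Matrix.single_mul_mul_single]
      simp [Matrix.smul_single]
    rw [h2] at h1
    exact (Submodule.smul_mem_iff _ hij).1 h1
  have key2 : ∀ c d, φ.symm (0, Matrix.single c d 1) ∈ I := by
    intro c d
    have h1 := (hI _ (key1 0 0) (φ.symm (0, Matrix.single c 0 1))
      (φ.symm (0, Matrix.single 0 d 1))).2.1
    have h2 : B (φ.symm (0, Matrix.single c 0 1)) (φ.symm (Matrix.single 0 0 1, 0))
        (φ.symm (0, Matrix.single 0 d 1)) = φ.symm (0, Matrix.single c d 1) := by
      apply φ.injective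
      rw [hφ]
      simp only [LinearEquiv.apply_symm_apply]
      rw [Matrix.single_mul_mul_single]
      simp
    rwa [h2] at h1
  rw [eq_top_iff]
  intro y _
  have h3 : y = φ.symm ((φ y).1, 0) + φ.symm (0, (φ y).2) := by
    rw [← map_add]
    apply φ.injective
    simp
  rw [h3]
  refine add_mem ?_ ?_
  · rw [Matrix.matrix_eq_sum_single (φ y).1]
    have : ((∑ a, ∑ b, Matrix.single a b ((φ y).1 a b), 0) :
        Matrix (Fin p) (Fin q) ℂ × Matrix (Fin q) (Fin p) ℂ) =
        ∑ a, ∑ b, (φ y).1 a b • (Matrix.single a b (1 : ℂ), 0) := by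
      refine Prod.ext ?_ ?_
      · simp [Prod.fst_sum, Matrix.smul_single]
      · simp [Prod.snd_sum]
    rw [this, map_sum]
    refine sum_mem fun a _ => ?_
    rw [map_sum]
    refine sum_mem fun b _ => ?_
    rw [map_smul]
    exact Submodule.smul_mem _ _ (key1 a b)
  · rw [Matrix.matrix_eq_sum_single (φ y).2]
    have : ((0, ∑ a, ∑ b, Matrix.single a b ((φ y).2 a b)) :
        Matrix (Fin p) (Fin q) ℂ × Matrix (Fin q) (Fin p) ℂ) =
        ∑ a, ∑ b, (φ y).2 a b • (0, Matrix.single a b (1 : ℂ)) := by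
      refine Prod.ext ?_ ?_
      · simp [Prod.fst_sum]
      · simp [Prod.snd_sum, Matrix.smul_single]
    rw [this, map_sum]
    refine sum_mem fun a _ => ?_
    rw [map_sum]
    refine sum_mem fun b _ => ?_
    rw [map_smul]
    exact Submodule.smul_mem _ _ (key2 a b)

lemma IsoPair.simple {p q : ℕ} (hp : 1 ≤ p) (hq : 1 ≤ q) (hB : IsoPair B p q) :
    IsSimpleTriple B := by
  classical
  obtain ⟨φ, hφ⟩ := hB
  have : NeZero p := ⟨by omega⟩
  have : NeZero q := ⟨by omega⟩
  constructor
  · intro h0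
    have h1 := hφ (φ.symm (Matrix.single 0 0 1, Matrix.single 0 0 1))
      (φ.symm (Matrix.single 0 0 1, Matrix.single 0 0 1))
      (φ.symm (Matrix.single 0 0 1, Matrix.single 0 0 1))
    rw [h0] at h1
    have h2 := congrArg (fun P => P.1 0 0) h1
    simp at h2
  · intro I hI
    by_cases hbot : I = ⊥
    · exact Or.inl hbot
    right
    obtain ⟨x, hx, hx0⟩ := Submodule.exists_mem_ne_zero_of_ne_bot hbot
    by_cases h2 : (φ x).2 = 0
    · have h1 : (φ x).1 ≠ 0 := by
        intro h1
        apply hx0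
        have : φ x = 0 := Prod.ext h1 h2
        simpa using this
      refine pair_aux hq hp (φ.trans (LinearEquiv.prodComm ℂ _ _)) ?_ I hI x hx ?_
      · intro X Y Z
        simp [hφ]
      · simpa using h1
    · exact pair_aux hp hq φ hφ I hI x hx h2

/-- the span of the left multiplications -/
def Lspan (B : W →ₗ[ℂ] W →ₗ[ℂ] W →ₗ[ℂ] W) : Submodule ℂ (Module.End ℂ W) :=
  Submodule.span ℂ (Set.range fun p : W × W => Lo B p.1 p.2)

lemma IsoMat.finrank {n : ℕ} (hB : IsoMat B n) :
    Module.finrank ℂ W = n * n ∧ Module.finrank ℂ (Lspan B) = n * n := by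
  classical
  obtain ⟨φ, hφ⟩ := hB
  have hM : Module.finrank ℂ (Matrix (Fin n) (Fin n) ℂ) = n * n := by
    rw [Module.finrank_matrix]; simp
  refine ⟨by rw [φ.finrank_eq, hM], ?_⟩
  let Ψ : Matrix (Fin n) (Fin n) ℂ →ₗ[ℂ] Module.End ℂ W :=
    { toFun := fun A => φ.symm.toLinearMap ∘ₗ LinearMap.mulLeft ℂ A ∘ₗ φ.toLinearMap
      map_add' := by intro A C; ext w; simp [add_mul]
      map_smul' := by intro c A; ext w; simp }
  have hL : ∀ x y, Lo B x y = Ψ (φ x * φ y) := by
    intro x y
    refine LinearMap.ext fun z => ?_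
    apply φ.injective
    rw [Lo_apply, hφ]
    simp [Ψ, Matrix.mul_assoc]
  have hinj : Function.Injective Ψ := by
    intro A C hAC
    have := congrArg (fun T : Module.End ℂ W => φ (T (φ.symm 1))) hAC
    simpa [Ψ] using this
  have hrange : Lspan B = LinearMap.range Ψ := by
    apply le_antisymm
    · rw [Lspan, Submodule.span_le]
      rintro _ ⟨⟨x, y⟩, rfl⟩
      exact ⟨_, (hL x y).symm⟩
    · rintro _ ⟨A, rfl⟩
      refine Submodule.subset_span ⟨(φ.symm A, φ.symm 1), ?_⟩
      change Lo B (φ.symm A) (φ.symm 1) = Ψ A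
      rw [hL]
      simp
  rw [hrange, LinearMap.finrank_range_of_inj hinj, hM]

lemma IsoPair.finrank {p q : ℕ} (hp : 1 ≤ p) (hq : 1 ≤ q) (hB : IsoPair B p q) :
    Module.finrank ℂ W = 2 * (p * q) ∧ Module.finrank ℂ (Lspan B) = p * p + q * q := by
  classical
  obtain ⟨φ, hφ⟩ := hB
  have : NeZero p := ⟨by omega⟩
  have : NeZero q := ⟨by omega⟩
  refine ⟨?_, ?_⟩
  · rw [φ.finrank_eq, Module.finrank_prod, Module.finrank_matrix, Module.finrank_matrix]
    simp
    ring
  let Ψ : Matrix (Fin p) (Fin p) ℂ × Matrix (Fin q) (Fin q) ℂ →ₗ[ℂ] Module.End ℂ W :=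
    { toFun := fun A =>
        { toFun := fun w => φ.symm (A.1 * (φ w).1, A.2 * (φ w).2)
          map_add' := by
            intro a b
            rw [← map_add]
            simp [Matrix.mul_add]
          map_smul' := by
            intro c a
            rw [RingHom.id_apply, ← map_smul]
            simp }
      map_add' := by
        intro A C
        refine LinearMap.ext fun w => ?_
        apply φ.injective
        simp [Matrix.add_mul]
      map_smul' := by
        intro c A
        refine LinearMap.ext fun w => ?_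
        apply φ.injective
        simp }
  have hΨ : ∀ A w, φ (Ψ A w) = (A.1 * (φ w).1, A.2 * (φ w).2) := by
    intro A w
    simp [Ψ]
  have hL : ∀ x y, Lo B x y = Ψ ((φ x).1 * (φ y).2, (φ x).2 * (φ y).1) := by
    intro x y
    refine LinearMap.ext fun z => ?_
    apply φ.injective
    rw [Lo_apply, hφ, hΨ]
  have hinj : Function.Injective Ψ := by
    rw [← LinearMap.ker_eq_bot, LinearMap.ker_eq_bot']
    rintro ⟨A, C⟩ hAC
    refine Prod.ext ?_ ?_
    · ext a b
      have h1 := hΨ (A, C) (φ.symm (Matrix.single b 0 1, 0))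
      rw [hAC] at h1
      have h2 := congrArg (fun P => P.1 a 0) h1
      simpa using h2.symm
    · ext a b
      have h1 := hΨ (A, C) (φ.symm (0, Matrix.single b 0 1))
      rw [hAC] at h1
      have h2 := congrArg (fun P => P.2 a 0) h1
      simpa using h2.symm
  have hrange : Lspan B = LinearMap.range Ψ := by
    apply le_antisymm
    · rw [Lspan, Submodule.span_le]
      rintro _ ⟨⟨x, y⟩, rfl⟩
      exact ⟨_, (hL x y).symm⟩
    · rintro _ ⟨⟨A, C⟩, rfl⟩
      have hsplit : ((A, C) : Matrix (Fin p) (Fin p) ℂ × Matrix (Fin q) (Fin q) ℂ) =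
          (∑ a, ∑ b, A a b • (Matrix.single a b (1 : ℂ), 0)) +
          ∑ a, ∑ b, C a b • (0, Matrix.single a b (1 : ℂ)) := by
        refine Prod.ext ?_ ?_
        · conv_lhs => rw [Matrix.matrix_eq_sum_single A]
          simp [Prod.fst_sum, Matrix.smul_single]
        · conv_lhs => rw [Matrix.matrix_eq_sum_single C]
          simp [Prod.snd_sum, Matrix.smul_single]
      rw [hsplit, map_add]
      refine add_mem ?_ ?_
      · rw [map_sum]
        refine sum_mem fun a _ => ?_
        rw [map_sum]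
        refine sum_mem fun b _ => ?_
        rw [map_smul]
        refine Submodule.smul_mem _ _ (Submodule.subset_span
          ⟨(φ.symm (Matrix.single a 0 1, 0), φ.symm (0, Matrix.single 0 b 1)), ?_⟩)
        change Lo B _ _ = _
        rw [hL]
        simp
      · rw [map_sum]
        refine sum_mem fun a _ => ?_
        rw [map_sum]
        refine sum_mem fun b _ => ?_
        rw [map_smul]
        refine Submodule.smul_mem _ _ (Submodule.subset_span
          ⟨(φ.symm (0, Matrix.single a 0 1), φ.symm (Matrix.single 0 b 1, 0)), ?_⟩)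
        change Lo B _ _ = _
        rw [hL]
        simp
  rw [hrange, LinearMap.finrank_range_of_inj hinj, Module.finrank_prod, Module.finrank_matrix,
    Module.finrank_matrix]
  simp

lemma IsoMat.unique {n m : ℕ} (h1 : IsoMat B n) (h2 : IsoMat B m) : n = m := by
  have e1 := h1.finrank.1
  have e2 := h2.finrank.1
  exact Nat.mul_self_inj.1 (e1.symm.trans e2)

lemma IsoPair.unique {p q p' q' : ℕ} (hp : 1 ≤ p) (hpq : p ≤ q) (hp' : 1 ≤ p') (hpq' : p' ≤ q')
    (h1 : IsoPair B p q) (h2 : IsoPair B p' q') : p = p' ∧ q = q' := by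
  obtain ⟨a1, a2⟩ := h1.finrank hp (hp.trans hpq)
  obtain ⟨b1, b2⟩ := h2.finrank hp' (hp'.trans hpq')
  have e1 : p * q = p' * q' := by omega
  have e2 : p * p + q * q = p' * p' + q' * q' := by omega
  obtain ⟨d, rfl⟩ := Nat.exists_eq_add_of_le hpq
  obtain ⟨d', rfl⟩ := Nat.exists_eq_add_of_le hpq'
  have e3 : d * d = d' * d' := by nlinarith
  have e4 : d = d' := Nat.mul_self_inj.1 e3
  subst e4
  have e5 : p = p' := by
    have : (2 * p + d) * (2 * p + d) = (2 * p' + d) * (2 * p' + d) := by nlinarith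
    have := Nat.mul_self_inj.1 this
    omega
  exact ⟨e5, by omega⟩

lemma IsoMat.not_pair {n p q : ℕ} (hp : 1 ≤ p) (hq : 1 ≤ q) (h1 : IsoMat B n) :
    ¬ IsoPair B p q := by
  intro h2
  obtain ⟨a1, a2⟩ := h1.finrank
  obtain ⟨b1, b2⟩ := h2.finrank hp hq
  have e1 : n * n = 2 * (p * q) := by omega
  have e2 : n * n = p * p + q * q := by omega
  have e3 : p = q := by
    have : ((p : ℤ) - q) ^ 2 = 0 := by
      have f1 : (n : ℤ) * n = 2 * (p * q) := by exact_mod_cast e1
      have f2 : (n : ℤ) * n = p * p + q * q := by exact_mod_cast e2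
      linear_combination f1 - f2
    have := pow_eq_zero_iff (two_ne_zero) |>.1 this
    omega
  subst e3
  have hn : n ≠ 0 := by
    rintro rfl
    nlinarith
  have e4 := congrArg (padicValNat 2) e1
  have hp0 : p ≠ 0 := by omega
  rw [padicValNat.mul hn hn, padicValNat.mul two_ne_zero (mul_ne_zero hp0 hp0),
    padicValNat.mul hp0 hp0, padicValNat.self (by norm_num)] at e4
  omega

end Pool.Agent.P09.Triple
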