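import Pool.Agent.P09.Triple.Lie

/-!
# If all multiplications are nilpotent then `[WWW] ≠ W`
-/

set_option autoImplicit false

namespace Pool.Agent.P09.Triple

universe u

attribute [local instance 100] LieRing.ofAssociativeRing

variable {W : Type u} [AddCommGroup W] [Module ℂ W]

namespace Ids

variable {B : W →ₗ[ℂ] W →ₗ[ℂ] W →ₗ[ℂ] W} (h : Ids B)
include h

lemma commute_LR (x y z : W) : Commute (Lo B x y) (Ro B y z) := by
  ext u
  simpa using h.i3 x y u z

/-- the dual representation -/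
noncomputable def dualRep : h.DD →ₗ⁅ℂ⁆ Module.End ℂ (Module.Dual ℂ W) where
  toFun T := - Module.Dual.transpose (R := ℂ) (T : Module.End ℂ W × Module.End ℂ W).1
  map_add' S T := by
    refine LinearMap.ext fun f => LinearMap.ext fun w => ?_
    change -(f _) = -(f _) + -(f _)
    rw [← neg_add, ← map_add]; rfl
  map_smul' c T := by
    refine LinearMap.ext fun f => LinearMap.ext fun w => ?_
    change -(f _) = c • (-(f _))
    rw [smul_neg, ← map_smul]; rfl
  map_lie' {S T} := by
    refine LinearMap.ext fun f => LinearMap.ext fun w => ?_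
    rw [Ring.lie_def]
    change -(f ((S : Module.End ℂ W × Module.End ℂ W).1 ((T : Module.End ℂ W × Module.End ℂ W).1 w)
      - (T : Module.End ℂ W × Module.End ℂ W).1 ((S : Module.End ℂ W × Module.End ℂ W).1 w))) =
      -(-(f ((T : Module.End ℂ W × Module.End ℂ W).1 ((S : Module.End ℂ W × Module.End ℂ W).1 w))))
      - (-(-(f ((S : Module.End ℂ W × Module.End ℂ W).1
        ((T : Module.End ℂ W × Module.End ℂ W).1 w)))))
    rw [map_sub]
    ring

lemma dualRep_apply (T : h.DD) (f : Module.Dual ℂ W) (w : W) :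
    h.dualRep T f w = - f ((T : Module.End ℂ W × Module.End ℂ W).1 w) := rfl

lemma exists_functional [FiniteDimensional ℂ W] [Nontrivial W]
    (hL : ∀ x y, IsNilpotent (Lo B x y)) (hR : ∀ x y, IsNilpotent (Ro B x y)) :
    ∃ f : Module.Dual ℂ W, f ≠ 0 ∧ ∀ x y z, f (J B x y z) = 0 := by
  have hD : ∀ x y, IsNilpotent (Do B x y) := fun x y =>
    (h.commute_LR x y x).isNilpotent_add (hL x y) (hR y x)
  have hz : ∀ x y, LinearMap.trace ℂ W (Do B x y) = 0 := fun x y =>
    (LinearMap.isNilpotent_trace_of_isNilpotent (hD x y)).eq_zero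
  have := h.solvable_DD hz
  obtain ⟨χ, hχ⟩ := LieModule.exists_nontrivial_weightSpace_of_isSolvable ℂ h.dualRep.range
    (Module.Dual ℂ W)
  obtain ⟨⟨f, hf⟩, hf0⟩ := exists_ne (0 : LieModule.weightSpace (Module.Dual ℂ W) χ)
  have hf0' : f ≠ 0 := fun h0 => hf0 (Subtype.ext h0)
  rw [LieModule.mem_weightSpace] at hf
  refine ⟨f, hf0', ?_⟩
  intro x y z
  set T : h.DD := ⟨dl B x y, dl_mem B x y⟩ with hT
  have e := hf ⟨h.dualRep T, ⟨T, rfl⟩⟩
  set c := χ ⟨h.dualRep T, ⟨T, rfl⟩⟩
  have e1 : ∀ w, f (Do B x y w) = - c * f w := by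
    intro w
    have := congrArg (fun g : Module.Dual ℂ W => g w) e
    change - f (Do B x y w) = c * f w at this
    linear_combination -this
  have e2 : ∀ (n : ℕ) w, f ((Do B x y ^ n) w) = (- c) ^ n * f w := by
    intro n
    induction n with
    | zero => intro w; simp
    | succ n ih =>
      intro w
      rw [pow_succ, Module.End.mul_apply, ih, e1, pow_succ, mul_assoc]
  obtain ⟨n, hn⟩ := hD x y
  obtain ⟨w, hw⟩ : ∃ w, f w ≠ 0 := by
    by_contra hcon
    push Not at hcon
    exact hf0' (LinearMap.ext hcon)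
  have e3 := e2 n w
  rw [hn] at e3
  simp only [LinearMap.zero_apply, map_zero] at e3
  have e4 : c = 0 := by
    have := (mul_eq_zero.1 e3.symm).resolve_right hw
    exact neg_eq_zero.1 (eq_zero_of_pow_eq_zero this)
  have e5 := e1 z
  rw [e4] at e5
  simpa using e5

lemma f_stable {f : Module.Dual ℂ W} (hf : ∀ x y z, f (J B x y z) = 0) (x y z w u : W) :
    f (B x y (J B z w u)) = 0 := by
  have hJ : ∀ a b c, f (B a b c) + f (B c b a) = 0 := fun a b c => by
    have := hf a b c; rwa [J, map_add] at this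
  have a1 := congrArg f (h.I1 x w u y z)
  have a2 := hJ z (B w x y) u
  have a3 := congrArg f (h.I3 x w u y z)
  have a4 := congrArg f (h.I2 x w u y z)
  have a5 := congrArg f (h.I3 x w z y u)
  have a6 := hJ (B x y u) w z
  have a7 := congrArg f (h.I1 x w z y u)
  have a8 := hJ (B x y z) w u
  simp only [J, map_add] at *
  linear_combination -a1 - a2 + a3 - a4 + a5 + a6 - a7 + a8

lemma f_skew {f : Module.Dual ℂ W} (hf : ∀ x y z, f (J B x y z) = 0) (x y z w u : W) :
    f (B x y (B z w u)) + f (B x w (B z y u)) = 0 := by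
  have hJ : ∀ a b c, f (B a b c) + f (B c b a) = 0 := fun a b c => by
    have := hf a b c; rwa [J, map_add] at this
  have a1 := hJ (B u y x) w z
  have a2 := hJ (B x y z) w u
  have a3 := congrArg f (h.I3 u w x y z)
  have a4 := congrArg f (h.I3 z w u y x)
  have a5 := hJ (B x w z) y u
  have a6 := hJ (B z y u) w x
  have a7 := hJ (B z w u) y x
  have a8 := congrArg f (h.I3 x y z w u)
  have a9 := hJ (B u w x) y z
  simp only [map_add] at *
  linear_combination (1 / 2 : ℂ) * (-a1 + a2 - a3 + a4 + a5 + a6 + a7 + a8 - a9)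

/-- the key step: a functional that kills all products -/
lemma exists_functional' [FiniteDimensional ℂ W]
    (hf : ∃ f : Module.Dual ℂ W, f ≠ 0 ∧ ∀ x y z, f (J B x y z) = 0) :
    ∃ f : Module.Dual ℂ W, f ≠ 0 ∧ ∀ x y z, f (B x y z) = 0 := by
  classical
  -- subspaces `Y` such that some nonzero functional kills `L(W,Y)`
  let P : Submodule ℂ W → Prop := fun Y => ∃ f : Module.Dual ℂ W, f ≠ 0 ∧
    (∀ x y z, f (J B x y z) = 0) ∧ ∀ x, ∀ y ∈ Y, ∀ z, f (B x y z) = 0
  have hP : ∃ Y, P Y := by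
    obtain ⟨f, hf0, hf1⟩ := hf
    exact ⟨⊥, f, hf0, hf1, fun x y hy z => by rw [(Submodule.mem_bot ℂ).1 hy]; simp⟩
  obtain ⟨Y, hY, hmax⟩ := WellFounded.has_min (wellFounded_gt (α := Submodule ℂ W)) {Y | P Y} hP
  obtain ⟨f, hf0, hf1, hf2⟩ := hY
  by_cases htop : Y = ⊤
  · exact ⟨f, hf0, fun x y z => hf2 x y (htop ▸ Submodule.mem_top) z⟩
  · exfalso
    obtain ⟨y0, hy0⟩ : ∃ y0, y0 ∉ Y := by
      by_contra hcon
      push Not at hcon
      exact htop (eq_top_iff.2 fun y _ => hcon y)
    have hlt : Y < Y ⊔ Submodule.span ℂ {y0} := by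
      refine lt_of_le_of_ne le_sup_left fun heq => hy0 ?_
      rw [heq]
      exact Submodule.mem_sup_right (Submodule.mem_span_singleton_self y0)
    have key : ∀ g : Module.Dual ℂ W, (∀ x, ∀ y ∈ Y, ∀ z, g (B x y z) = 0) →
        (∀ x z, g (B x y0 z) = 0) → ∀ x, ∀ y ∈ Y ⊔ Submodule.span ℂ {y0}, ∀ z,
        g (B x y z) = 0 := by
      intro g hg1 hg2 x y hy z
      obtain ⟨a, ha, b, hb, rfl⟩ := Submodule.mem_sup.1 hy
      obtain ⟨c, rfl⟩ := Submodule.mem_span_singleton.1 hb
      simp [hg1 x a ha z, hg2 x z]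
    by_cases hcase : ∀ x z, f (B x y0 z) = 0
    · exact hmax _ ⟨f, hf0, hf1, key f hf2 hcase⟩ hlt
    · push Not at hcase
      obtain ⟨x0, z0, hx0⟩ := hcase
      let g : Module.Dual ℂ W := f ∘ₗ B x0 y0
      refine hmax _ ⟨g, ?_, ?_, key g ?_ ?_⟩ hlt
      · intro hg
        exact hx0 (congrArg (fun k : Module.Dual ℂ W => k z0) hg)
      · intro x y z
        exact h.f_stable hf1 x0 y0 x y z
      · intro x y hy z
        have := h.f_skew hf1 x0 y0 x y z
        rw [hf2 x0 y hy, add_zero] at this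
        exact this
      · intro x z
        have := h.f_skew hf1 x0 y0 x y0 z
        change f (B x0 y0 (B x y0 z)) = 0
        linear_combination (1 / 2 : ℂ) * this

end Ids

end Pool.Agent.P09.Triple
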