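import Pool.Agent.P09.Triple.Simple

/-!
# Minimal idempotent pairs lie in the nucleus
-/

set_option autoImplicit false

namespace Pool.Agent.P09.Triple

universe u

variable {W : Type u} [AddCommGroup W] [Module ℂ W]

lemma IdemPair.symm {B : W →ₗ[ℂ] W →ₗ[ℂ] W →ₗ[ℂ] W} {e f : W} (hp : IdemPair B e f) :
    IdemPair B f e := ⟨hp.fef, hp.efe⟩

/-- all bracketings of a word of length five agree -/
def Asc (B : W →ₗ[ℂ] W →ₗ[ℂ] W →ₗ[ℂ] W) (a b c d g : W) : Prop :=
  B a b (B c d g) = B (B a b c) d g ∧ B a (B b c d) g = B (B a b c) d g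

/-- the form of six variables -/
noncomputable def Hf (B : W →ₗ[ℂ] W →ₗ[ℂ] W →ₗ[ℂ] W) (a b c d g w : W) : ℂ :=
  bf B (B a b c) (B d g w)

lemma Hf_rot (B : W →ₗ[ℂ] W →ₗ[ℂ] W →ₗ[ℂ] W) (a b c d g w : W) :
    Hf B a b c d g w = Hf B d g w a b c := bf_comm B _ _

/-- minimal idempotent pairs -/
structure MinPair (B : W →ₗ[ℂ] W →ₗ[ℂ] W →ₗ[ℂ] W) (e f : W) : Prop where
  idem : IdemPair B e f
  ne : e ≠ 0
  he : ∀ w, ∃ c : ℂ, B e w e = c • e
  hf : ∀ w, ∃ c : ℂ, B f w f = c • f

lemma MinPair.symm {B : W →ₗ[ℂ] W →ₗ[ℂ] W →ₗ[ℂ] W} {e f : W} (hp : MinPair B e f) :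
    MinPair B f e := ⟨hp.idem.symm, fun h0 => hp.ne (by
      rw [← hp.idem.efe, h0]; simp), hp.hf, hp.he⟩

namespace Ids

variable {B : W →ₗ[ℂ] W →ₗ[ℂ] W →ₗ[ℂ] W} (h : Ids B)
include h

lemma bfR (a b x w : W) : bf B (B a b x) w = bf B x (B w a b) := by
  rw [bf_comm, ← h.bf_assoc, bf_comm]

lemma bfM (a x g w : W) : bf B (B a x g) w = bf B x (B g w a) := by
  rw [h.bf_cyc, h.bf_assoc]

/-- skewness in the first and fifth argument -/
lemma skew15 (a b c d g w : W) :
    bf B (B a b (B c d g) - B (B a b c) d g) w =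
      - bf B (B g b (B c d a) - B (B g b c) d a) w := by
  have e := congrArg (fun v => bf B v c) (h.I3 d g w a b)
  simp only [map_add, map_sub, LinearMap.add_apply, LinearMap.sub_apply] at e ⊢
  have t1 := h.bfR a b (B c d g) w
  have t2 := h.bf_assoc (B a b c) d g w
  have t3 := h.bfR g b (B c d a) w
  have t4 := h.bf_assoc (B g b c) d a w
  have s1 := h.bfR d g (B w a b) c
  have s2 := h.bf_assoc (B d g w) a b c
  have s3 := h.bfR d a (B w g b) c
  have s4 := h.bf_assoc (B d a w) g b c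
  have r1 := bf_comm B (B c d g) (B w a b)
  have r2 := bf_comm B (B c d a) (B w g b)
  have r3 := bf_comm B (B a b c) (B d g w)
  have r4 := bf_comm B (B g b c) (B d a w)
  linear_combination e + t1 - t2 + t3 - t4 - s1 + s2 - s3 + s4 + r1 + r2 - r3 - r4

/-- skewness in the second and sixth argument -/
lemma skew26 (a b c d g w : W) :
    bf B (B a (B b c d) g - B (B a b c) d g) w =
      - bf B (B a (B w c d) g - B (B a w c) d g) b := by
  have e := congrArg (fun v => bf B v c) (h.I2 d g w a b)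
  simp only [map_add, map_sub, LinearMap.add_apply, LinearMap.sub_apply] at e ⊢
  have t1 := h.bfM a (B b c d) g w
  have t2 := h.bf_assoc (B a b c) d g w
  have t3 := h.bfM a (B w c d) g b
  have t4 := h.bf_assoc (B a w c) d g b
  have s1 := h.bfM d (B g w a) b c
  have s2 := h.bf_assoc (B d g w) a b c
  have s3 := h.bfM d (B g b a) w c
  have s4 := h.bf_assoc (B d g b) a w c
  have r1 := bf_comm B (B b c d) (B g w a)
  have r2 := bf_comm B (B w c d) (B g b a)
  have r3 := bf_comm B (B a b c) (B d g w)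
  have r4 := bf_comm B (B a w c) (B d g b)
  linear_combination e + t1 - t2 + t3 - t4 - s1 + s2 - s3 + s4 + r1 + r2 - r3 - r4

section pair

variable {e f : W} (hp : IdemPair B e f)
include hp

lemma c1 (x z : W) : B x f z = B (B x f e) f z := by
  have e1 := h.LR x f z f e
  have e2 := h.LR (B x f e) f z f e
  have a1 : B (B x f e) f e = B x f e := by rw [← h.i3, hp.efe]
  have a2 : B f (B x f e) f = B f x f := by rw [← h.i1, hp.fef]
  rw [a1, a2] at e2
  rw [h.i3 x f z e, hp.fef] at e1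
  rw [h.i3 (B x f e) f z e, hp.fef] at e2
  linear_combination (norm := module) e1 - e2

lemma c1b (x z : W) : B x f z = B x f (B e f z) := by
  have e1 := h.LR e f x f z
  have e2 := h.LR e f x f (B e f z)
  have a1 : B e f (B e f z) = B e f z := by rw [h.i3, hp.efe]
  have a2 : B f (B e f z) f = B f z f := by rw [h.i2, hp.fef]
  rw [a1, a2] at e2
  rw [h.i3 e f x z, hp.fef] at e1
  rw [h.i3 e f x (B e f z), hp.fef] at e2
  linear_combination (norm := module) e2 - e1

end pair

section nd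

variable (nd : ∀ x, (∀ y, bf B x y = 0) → x = 0) {e f : W}
include nd

omit h in
lemma nd_ext {x y : W} (hxy : ∀ w, bf B x w = bf B y w) : x = y := by
  rw [← sub_eq_zero]
  apply nd
  intro w
  rw [map_sub, LinearMap.sub_apply, hxy, sub_self]

lemma c2 (hp : IdemPair B e f) (y z : W) : B e y z = B e (B f e y) z := by
  apply nd_ext nd
  intro w
  rw [h.bfR, h.bfR, h.c1b hp.symm w y]

lemma c2b (hp : IdemPair B e f) (y z : W) : B z y e = B z (B y e f) e := by
  apply nd_ext nd
  intro w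
  rw [h.bf_assoc, h.bf_assoc]
  rw [h.c1 hp.symm y w]

omit nd in
lemma sand (hp : MinPair B e f) (y : W) : ∃ c : ℂ, B (B f e y) e f = c • f := by
  obtain ⟨c, hc⟩ := hp.he y
  refine ⟨c, ?_⟩
  rw [← h.i3, ← h.mid, hc, map_smul, LinearMap.smul_apply, hp.idem.fef]

lemma N1 (hp : MinPair B e f) (x y z : W) : B e f (B x y z) = B (B e f x) y z := by
  have key1 : ∀ y z, B e f (B x y z) - B (B e f x) y z =
      B e f (B x (B f e y) (B e f z)) - B (B e f x) (B f e y) (B e f z) := by
    intro y z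
    have e1 := h.I3 e f x y z
    have e2 := h.I3 e f x (B f e y) (B e f z)
    rw [← h.c2 nd hp.idem y x, ← h.c2 nd hp.idem y, ← h.c1b hp.idem x z,
      ← h.c1b hp.idem _ z] at e2
    linear_combination (norm := module) e1 - e2
  have key2 : ∀ y z, B e f (B x y z) - B (B e f x) y z =
      B e f (B x (B y e f) (B z f e)) - B (B e f x) (B y e f) (B z f e) := by
    intro y z
    apply nd_ext nd
    intro w
    rw [h.skew15, h.skew15 e f x (B y e f) (B z f e)]
    rw [← h.c2b nd hp.idem y x, ← h.c1 hp.idem z, ← h.c1 hp.idem z x, ← h.c2b nd hp.idem y]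
  obtain ⟨c1, hc1⟩ := h.sand hp y
  obtain ⟨c2, hc2⟩ := h.sand hp.symm z
  have e3 := h.i3 e f x e
  rw [← sub_eq_zero, key1, key2, hc1, hc2]
  simp only [map_smul, LinearMap.smul_apply]
  rw [e3, sub_self]

lemma N2 (hp : MinPair B e f) (x y z : W) : B e (B f x y) z = B (B e f x) y z := by
  have s1 : ∀ x y z, B e (B f x y) z - B (B e f x) y z =
      - (B e (B f z y) x - B (B e f z) y x) := by
    intro x y z
    have e1 := h.I2 e f x y z
    linear_combination (norm := module) e1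
  have s2 : ∀ x y z, B e (B f x y) z - B (B e f x) y z =
      B e (B f (B e f x) y) z - B (B e f (B e f x)) y z := by
    intro x y z
    rw [← h.c2 nd hp.idem.symm x y, h.i3 e f e x, hp.idem.efe]
  have s3 : ∀ x y z, B e (B f x y) z - B (B e f x) y z =
      B e (B f x y) (B e f z) - B (B e f x) y (B e f z) := by
    intro x y z
    rw [s1, s2 z y x, s1 (B e f z) y x, neg_neg]
  have s4 : ∀ x y z, B e (B f x y) z - B (B e f x) y z =
      B e (B f x y) (B z f e) - B (B e f x) y (B z f e) := by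
    intro x y z
    apply nd_ext nd
    intro w
    rw [h.skew26, h.skew26 e f x y (B z f e)]
    simp only [map_sub, LinearMap.sub_apply]
    rw [h.bf_assoc e (B w x y) z f, h.bf_assoc (B e w x) y z f,
      h.bf_assoc e (B w x y) (B z f e) f, h.bf_assoc (B e w x) y (B z f e) f,
      ← h.c2b nd hp.idem.symm z (B w x y), ← h.c2b nd hp.idem.symm z y]
  obtain ⟨c, hc⟩ := h.sand hp.symm z
  obtain ⟨c', hc'⟩ := h.sand hp.symm x
  have s5 : ∀ x y z, ∀ c : ℂ, B (B e f z) f e = c • e → B e (B f x y) z - B (B e f x) y z =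
      c • (B e (B f x y) e - B (B e f x) y e) := by
    intro x y z c hc
    rw [s3, s4, hc, map_smul, map_smul, smul_sub]
  rw [← sub_eq_zero, s5 x y z c hc, s1, s5 e y x c' hc']
  have s6 : B e (B f e y) e - B (B e f e) y e = 0 := by
    have := s1 e y e
    have h2 : (2 : ℂ) • (B e (B f e y) e - B (B e f e) y e) = 0 := by
      linear_combination (norm := module) this
    exact (smul_eq_zero.1 h2).resolve_left two_ne_zero
  rw [s6]
  simp

/-- equality of the three forms -/
def Eq6 (B : W →ₗ[ℂ] W →ₗ[ℂ] W →ₗ[ℂ] W) (a b c d g w : W) : Prop :=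
  Hf B c d g w a b = Hf B a b c d g w ∧ Hf B b c d g w a = Hf B a b c d g w

omit h nd in
lemma Eq6.rot {a b c d g w : W} (he : Eq6 B a b c d g w) : Eq6 B b c d g w a := by
  refine ⟨?_, ?_⟩
  · rw [Hf_rot, he.2]
  · rw [he.1, he.2]

lemma asc_of_eq6 {a b c d g : W} (he : ∀ w, Eq6 B a b c d g w) : Asc B a b c d g := by
  refine ⟨?_, ?_⟩ <;> apply nd_ext nd <;> intro w
  · rw [h.bfR a b (B c d g) w, h.bf_assoc (B a b c) d g w]
    exact (he w).1
  · rw [h.bfM a (B b c d) g w, h.bf_assoc (B a b c) d g w]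
    exact (he w).2

omit nd in
lemma eq6_of_asc {a b c d g : W} (he : Asc B a b c d g) (w : W) : Eq6 B a b c d g w := by
  refine ⟨?_, ?_⟩
  · rw [Hf, Hf, ← h.bfR, ← h.bf_assoc, he.1]
  · rw [Hf, Hf, ← h.bfM, ← h.bf_assoc, he.2]

lemma adj (hp : MinPair B e f) (x y z w : W) : Eq6 B e f x y z w :=
  h.eq6_of_asc ⟨h.N1 nd hp x y z, h.N2 nd hp x y z⟩ w

/-- `f` in fourth position -/
lemma N3 (hp : MinPair B e f) (x y p q : W) : B x y (B p f q) = B (B x y p) f q := by
  have k1 : ∀ p, B x y (B p f q) - B (B x y p) f q =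
      B x y (B (B e f p) f q) - B (B x y (B e f p)) f q := by
    intro p
    have e1 := h.I3 x y p f q
    have e2 := h.I3 x y (B e f p) f q
    have e3 : B x f (B p y q) = B x f (B (B e f p) y q) := by
      rw [h.c1b hp.idem, h.N1 nd hp]
    have e4 : B x f (B e f p) = B x f p := (h.c1b hp.idem x p).symm
    rw [e4] at e2
    linear_combination (norm := module) e1 - e2 - e3
  have k2 : ∀ p, B x y (B p f q) - B (B x y p) f q =
      B x y (B (B p f e) f q) - B (B x y (B p f e)) f q := by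
    intro p
    have e1 : Asc B x y p f e := by
      apply h.asc_of_eq6 nd
      intro w
      exact (h.adj nd hp.symm w x y p).rot.rot.rot
    rw [← h.c1 hp.idem p q, e1.1, ← h.c1 hp.idem]
  obtain ⟨c, hc⟩ := h.sand hp.symm p
  have e2 : Asc B x y e f q := by
    apply h.asc_of_eq6 nd
    intro w
    exact (h.adj nd hp q w x y).rot.rot.rot.rot
  rw [← sub_eq_zero, k1, k2, hc]
  simp only [map_smul, LinearMap.smul_apply]
  rw [e2.1, sub_self]

lemma z4 (hp : MinPair B e f) (a b c g w : W) : Hf B c f g w a b = Hf B a b c f g w := by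
  rw [Hf, Hf, ← h.bfR, ← h.bf_assoc, h.N3 nd hp]

lemma z2 (hp : MinPair B e f) (a c d g w : W) : Hf B c d g w a f = Hf B a f c d g w := by
  rw [Hf, Hf, ← h.bfR, ← h.bf_assoc]
  have e1 := h.I3 a f c d g
  rw [h.N3 nd hp] at e1
  rw [add_right_cancel e1]

lemma z1 (hp : MinPair B e f) (b c d g w : W) : Hf B c d g w f b = Hf B f b c d g w := by
  have := h.z4 nd hp d g w b c
  rw [Hf_rot B f b c, ← this, Hf_rot]

lemma z5 (hp : MinPair B e f) (a b c d w : W) : Hf B c d f w a b = Hf B a b c d f w := by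
  have := h.z2 nd hp d w a b c
  rw [Hf_rot B a b c, ← this, Hf_rot]

/-- `f` is nuclear in all positions -/
lemma nuc (hp : MinPair B e f) (a b c d : W) :
    Asc B f a b c d ∧ Asc B a f b c d ∧ Asc B a b f c d ∧ Asc B a b c f d ∧ Asc B a b c d f := by
  refine ⟨?_, ?_, ?_, ?_, ?_⟩ <;> apply h.asc_of_eq6 nd <;> intro w
  · refine ⟨h.z1 nd hp _ _ _ _ _, ?_⟩
    have := h.z5 nd hp b c d w a
    rw [← h.z1 nd hp, ← this, Hf_rot]
  · refine ⟨h.z2 nd hp _ _ _ _ _, ?_⟩
    have := h.z4 nd hp d w a b c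
    rw [this, Hf_rot]
  · have e1 := h.z5 nd hp d w a b c
    have e2 := h.z1 nd hp c d w a b
    rw [Hf_rot B d w a] at e1
    rw [Hf_rot B d w a] at e2
    exact ⟨by rw [← e2, e1], e1.symm⟩
  · refine ⟨h.z4 nd hp _ _ _ _ _, ?_⟩
    have := h.z2 nd hp c d w a b
    rw [← h.z4 nd hp, ← this, Hf_rot]
  · refine ⟨h.z5 nd hp _ _ _ _ _, ?_⟩
    have := h.z1 nd hp w a b c d
    rw [this, Hf_rot]

end nd

end Ids

end Pool.Agent.P09.Triple
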