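import Pool.Agent.P09.Triple.Idem

/-!
# Simple systems: the form is nondegenerate, minimal idempotent pairs exist
-/

set_option autoImplicit false

namespace Pool.Agent.P09.Triple

universe u

open Polynomial

variable {W : Type u} [AddCommGroup W] [Module ℂ W]

/-- ideals of triple systems -/
def IsTripIdeal (B : W →ₗ[ℂ] W →ₗ[ℂ] W →ₗ[ℂ] W) (I : Submodule ℂ W) : Prop :=
  ∀ x ∈ I, ∀ y z : W, B x y z ∈ I ∧ B y x z ∈ I ∧ B y z x ∈ I

/-- simple triple systems -/
def IsSimpleTriple (B : W →ₗ[ℂ] W →ₗ[ℂ] W →ₗ[ℂ] W) : Prop :=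
  B ≠ 0 ∧ ∀ I : Submodule ℂ W, IsTripIdeal B I → I = ⊥ ∨ I = ⊤

/-- the middle Peirce space of an idempotent pair -/
def Pe (B : W →ₗ[ℂ] W →ₗ[ℂ] W →ₗ[ℂ] W) (e f : W) : Submodule ℂ W where
  carrier := {x | B e f x = x ∧ B x f e = x}
  add_mem' := by
    rintro a b ⟨h1, h2⟩ ⟨h3, h4⟩
    exact ⟨by rw [map_add, h1, h3], by rw [map_add, LinearMap.add_apply, LinearMap.add_apply, h2, h4]⟩
  zero_mem' := by simp
  smul_mem' := by
    rintro c a ⟨h1, h2⟩
    exact ⟨by rw [map_smul, h1], by rw [map_smul, LinearMap.smul_apply, LinearMap.smul_apply, h2]⟩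

lemma mem_Pe {B : W →ₗ[ℂ] W →ₗ[ℂ] W →ₗ[ℂ] W} {e f x : W} :
    x ∈ Pe B e f ↔ B e f x = x ∧ B x f e = x := Iff.rfl

/-- a linear map preserving a submodule: so do its polynomials -/
lemma aeval_mem {T : Module.End ℂ W} {A : Submodule ℂ W} (hT : ∀ a ∈ A, T a ∈ A) (q : ℂ[X])
    {a : W} (ha : a ∈ A) : aeval T q a ∈ A := by
  induction q using Polynomial.induction_on' with
  | add p q hp hq => rw [map_add]; exact add_mem hp hq
  | monomial n c =>
    rw [← C_mul_X_pow_eq_monomial, map_mul, aeval_C, map_pow, aeval_X, Module.End.mul_apply]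
    have : ∀ n : ℕ, (T ^ n) a ∈ A := by
      intro n
      induction n with
      | zero => simpa using ha
      | succ n ih => rw [pow_succ', Module.End.mul_apply]; exact hT _ ih
    exact A.smul_mem c (this n)

namespace Ids

variable {B : W →ₗ[ℂ] W →ₗ[ℂ] W →ₗ[ℂ] W} (h : Ids B)
include h

lemma exists_nonnil [FiniteDimensional ℂ W] (hs : IsSimpleTriple B) :
    ∃ x y, ¬ IsNilpotent (Lo B x y) := by
  by_contra hcon
  push Not at hcon
  have hR : ∀ x y, IsNilpotent (Ro B x y) := fun x y => (h.nilp_of_nilp (hcon x y)).2.2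
  have hnt : Nontrivial W := by
    by_contra hnt
    rw [not_nontrivial_iff_subsingleton] at hnt
    exact hs.1 (LinearMap.ext fun x => LinearMap.ext fun y => LinearMap.ext fun z =>
      Subsingleton.elim _ _)
  obtain ⟨f, hf0, hf⟩ := h.exists_functional' (h.exists_functional hcon hR)
  let I : Submodule ℂ W := Submodule.span ℂ (Set.range fun p : W × W × W => B p.1 p.2.1 p.2.2)
  have hI : ∀ x y z, B x y z ∈ I := fun x y z => Submodule.subset_span ⟨(x, y, z), rfl⟩
  have hle : I ≤ LinearMap.ker f := by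
    rw [Submodule.span_le]
    rintro _ ⟨p, rfl⟩
    exact hf _ _ _
  rcases hs.2 I (fun x _ y z => ⟨hI _ _ _, hI _ _ _, hI _ _ _⟩) with h1 | h1
  · apply hs.1
    refine LinearMap.ext fun x => LinearMap.ext fun y => LinearMap.ext fun z => ?_
    have := hI x y z
    rw [h1, Submodule.mem_bot] at this
    exact this
  · apply hf0
    ext x
    exact hle (h1 ▸ Submodule.mem_top)

/-- the form is nondegenerate -/
lemma nondeg [FiniteDimensional ℂ W] (hs : IsSimpleTriple B) (x : W) (hx : ∀ y, bf B x y = 0) :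
    x = 0 := by
  have hker : ∀ {x : W}, x ∈ LinearMap.ker (bf B) ↔ ∀ y, bf B x y = 0 := by
    intro x
    rw [LinearMap.mem_ker]
    constructor
    · intro h0 y; rw [h0]; rfl
    · intro h0; exact LinearMap.ext h0
  have hid : IsTripIdeal B (LinearMap.ker (bf B)) := by
    intro x hx y z
    rw [hker] at hx
    refine ⟨?_, ?_, ?_⟩ <;> rw [hker] <;> intro w
    · rw [h.bf_assoc]; exact hx _
    · rw [h.bf_cyc, h.bf_assoc]; exact hx _
    · rw [h.bf_cyc, h.bf_cyc, h.bf_assoc]; exact hx _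
  rcases hs.2 _ hid with h1 | h1
  · have := hker.2 hx
    rwa [h1, Submodule.mem_bot] at this
  · exfalso
    obtain ⟨a, b, hab⟩ := h.exists_nonnil hs
    obtain ⟨q, hq0, hq1, -⟩ := h.exists_idem hab
    have hp := h.idemPair_of_idem hq1
    apply h.bf_idem_ne_zero hp hq0
    exact hker.1 (h1 ▸ Submodule.mem_top) _

lemma mid (x y u : W) : B x (B y u y) x = B x y (B u y x) := by
  have e1 := h.I1 x y u y x
  have e2 := h.i3 u y x x
  have e3 := h.i2 u y x y
  linear_combination (norm := module) -e1 + e2 - e3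

lemma Pe_mul {e f a b : W} (ha : a ∈ Pe B e f) (hb : b ∈ Pe B e f) : B a f b ∈ Pe B e f := by
  rw [mem_Pe] at *
  refine ⟨?_, ?_⟩
  · rw [h.i3, ha.1]
  · rw [← h.i3, hb.2]

lemma ewe_mem {e f : W} (hp : IdemPair B e f) (w : W) : B e w e ∈ Pe B e f := by
  rw [mem_Pe]
  refine ⟨?_, ?_⟩
  · rw [h.i1, h.i2, hp.efe]
  · rw [← h.i2, ← h.i1, hp.efe]

lemma Pe_idem {f e' : W} (hi : B e' f e' = e') :
    ∀ x, x ∈ Pe B e' (B f e' f) ↔ (B e' f x = x ∧ B x f e' = x) := by
  intro x
  have e1 : Lo B e' (B f e' f) = Lo B e' f := by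
    rw [← h.opLL', h.opLL, hi]
  have e2 : Ro B (B f e' f) e' = Ro B f e' := by
    rw [← h.opRR', h.opRR, hi]
  have e3 : B e' (B f e' f) x = B e' f x := congrArg (fun T : Module.End ℂ W => T x) e1
  have e4 : B x (B f e' f) e' = B x f e' := congrArg (fun T : Module.End ℂ W => T x) e2
  rw [mem_Pe, e3, e4]

lemma Pe_le {e f e' : W} (he : e' ∈ Pe B e f) (hi : B e' f e' = e') :
    Pe B e' (B f e' f) ≤ Pe B e f := by
  intro x hx
  rw [h.Pe_idem hi] at hx
  rw [mem_Pe] at *
  refine ⟨?_, ?_⟩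
  · rw [← hx.1, h.i3, he.1]
  · rw [← hx.2, ← h.i3, he.2]

/-- existence of minimal idempotent pairs -/
lemma exists_min [FiniteDimensional ℂ W] (hs : IsSimpleTriple B) :
    ∃ e f, IdemPair B e f ∧ e ≠ 0 ∧ ∀ x ∈ Pe B e f, ∃ c : ℂ, x = c • e := by
  classical
  let P : ℕ → Prop := fun n => ∃ e f, IdemPair B e f ∧ e ≠ 0 ∧ Module.finrank ℂ (Pe B e f) = n
  have hP : ∃ n, P n := by
    obtain ⟨a, b, hab⟩ := h.exists_nonnil hs
    obtain ⟨q, hq0, hq1, -⟩ := h.exists_idem hab
    exact ⟨_, _, _, h.idemPair_of_idem hq1, hq0, rfl⟩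
  obtain ⟨e, f, hp, he0, hn⟩ := Nat.find_spec hP
  have hmin : ∀ e' f', IdemPair B e' f' → e' ≠ 0 →
      Module.finrank ℂ (Pe B e f) ≤ Module.finrank ℂ (Pe B e' f') := by
    intro e' f' h1 h2
    rw [hn]
    exact Nat.find_min' hP ⟨e', f', h1, h2, rfl⟩
  have heA : e ∈ Pe B e f := ⟨hp.efe, hp.efe⟩
  -- idempotents in `A` are equal to `e`
  have hA3 : ∀ e' ∈ Pe B e f, e' ≠ 0 → B e' f e' = e' → e' = e := by
    intro e' he' h0 hi
    have hle := h.Pe_le he' hi
    have heq := Submodule.eq_of_le_of_finrank_le hle (hmin _ _ (h.idemPair_of_idem hi) h0)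
    have : e ∈ Pe B e' (B f e' f) := by rw [heq]; exact heA
    rw [h.Pe_idem hi] at this
    rw [← this.1, he'.2]
  -- polynomials
  have hstab : ∀ a ∈ Pe B e f, ∀ b ∈ Pe B e f, Lo B a f b ∈ Pe B e f := fun a ha b hb =>
    h.Pe_mul ha hb
  have hA3' : ∀ a ∈ Pe B e f, ¬ IsNilpotent (Lo B a f) →
      ∃ q : ℂ[X], aeval (Lo B a f) q a = e ∧ Lo B e f = aeval (Lo B a f) q * Lo B a f := by
    intro a ha hnn
    obtain ⟨q, hq0, hq1, hq2⟩ := h.exists_idem hnn
    have hmem : aeval (Lo B a f) q a ∈ Pe B e f := aeval_mem (hstab a ha) q ha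
    have heq := hA3 _ hmem hq0 hq1
    exact ⟨q, heq, by rw [← hq2, heq]⟩
  have hA4 : ∀ a ∈ Pe B e f, ∃ μ : ℂ, IsNilpotent (Lo B (a - μ • e) f) := by
    intro a ha
    have hnt : Nontrivial (Pe B e f) := ⟨⟨⟨e, heA⟩, 0, fun h0 => he0 (congrArg Subtype.val h0)⟩⟩
    obtain ⟨μ, hμ⟩ := Module.End.exists_eigenvalue ((Lo B a f).restrict (hstab a ha))
    obtain ⟨⟨v, hvA⟩, hv⟩ := hμ.exists_hasEigenvector
    have hv0 : v ≠ 0 := fun h0 => hv.2 (Subtype.ext h0)
    have hv1 : B a f v = μ • v := congrArg Subtype.val hv.apply_eq_smul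
    refine ⟨μ, ?_⟩
    by_contra hnn
    have ha' : a - μ • e ∈ Pe B e f := sub_mem ha (Submodule.smul_mem _ _ heA)
    obtain ⟨q, -, hq⟩ := hA3' _ ha' hnn
    have e1 : Lo B e f v = v := hvA.1
    have e2 : Lo B (a - μ • e) f v = 0 := by
      simp only [Lo_apply, map_sub, map_smul, LinearMap.sub_apply, LinearMap.smul_apply]
      rw [hv1, hvA.1, sub_self]
    rw [hq, Module.End.mul_apply, e2, map_zero] at e1
    exact hv0 e1.symm
  have hA5 : ∀ n ∈ Pe B e f, IsNilpotent (Lo B n f) → n = 0 := by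
    intro n hn' hnil
    -- `n` is not right invertible
    have hinv : ∀ g, B n f g ≠ e := by
      intro g hg
      have e1 : Lo B n f * Lo B e f * Lo B g f = Lo B e f := by
        rw [h.opLL, hn'.2, h.opLL, hg]
      have e2 : ∀ j : ℕ, Lo B n f ^ j * Lo B e f * Lo B g f ^ j = Lo B e f := by
        intro j
        induction j with
        | zero => simp
        | succ j ih =>
          calc Lo B n f ^ (j + 1) * Lo B e f * Lo B g f ^ (j + 1)
              = Lo B n f ^ j * (Lo B n f * Lo B e f * Lo B g f) * Lo B g f ^ j := by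
                rw [pow_succ, pow_succ' (Lo B g f)]; simp only [mul_assoc]
            _ = Lo B e f := by rw [e1, ih]
      obtain ⟨k, hk⟩ := hnil
      have e3 := e2 k
      rw [hk, zero_mul, zero_mul] at e3
      apply he0
      rw [← hp.efe, ← Lo_apply, ← e3]
      rfl
    have hcn : ∀ b ∈ Pe B e f, IsNilpotent (Lo B (B n f b) f) := by
      intro b hb
      by_contra hnn
      have hc := h.Pe_mul hn' hb
      obtain ⟨q, hq, -⟩ := hA3' _ hc hnn
      set T := Lo B (B n f b) f with hT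
      have hTe : T e = B n f b := hc.2
      apply hinv (Lo B b f (aeval T q e))
      have : aeval T q (T e) = T (aeval T q e) := by
        rw [← Module.End.mul_apply, ← Module.End.mul_apply]
        congr 1
        have hc := (Algebra.commute_of_mem_adjoin_self
          (R := ℂ) (a := T) (b := aeval T q) (aeval_mem_adjoin_singleton ℂ T)).eq
        exact hc.symm
      rw [← hTe, this] at hq
      have hT3 : ∀ v, T v = B n f (Lo B b f v) := fun v => by
        rw [hT, ← h.opLL]; rfl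
      rw [← hT3]
      exact hq
    apply h.nondeg hs
    intro w
    have s1 : bf B n w = bf B n (B w e f) := by
      conv_lhs => rw [← hn'.1]
      rw [h.bf_cyc, h.bf_cyc, h.bf_assoc]
    have s2 : bf B n (B w e f) = bf B n (B f e (B w e f)) := by
      conv_lhs => rw [← hn'.2]
      rw [h.bf_assoc]
    rw [s1, s2, ← h.mid f e w, ← h.bf_assoc]
    have hnil' := hcn _ (h.ewe_mem hp w)
    have h3 := h.nilp_of_nilp hnil'
    have z : ∀ {T : Module.End ℂ W}, IsNilpotent T → LinearMap.trace ℂ W T = 0 := fun hT =>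
      (LinearMap.isNilpotent_trace_of_isNilpotent hT).eq_zero
    rw [bf_apply, mf_apply, mf_apply, tauL_apply, tauL_apply, tauR_apply, tauR_apply,
      z hnil', z h3.1, z h3.2.1, z h3.2.2]
    simp
  refine ⟨e, f, hp, he0, ?_⟩
  intro a ha
  obtain ⟨μ, hμ⟩ := hA4 a ha
  have := hA5 _ (sub_mem ha (Submodule.smul_mem _ μ heA)) hμ
  exact ⟨μ, sub_eq_zero.1 this⟩

end Ids

end Pool.Agent.P09.Triple
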