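import Pool.Agent.P09.Triple.Form

/-!
# A Lie algebra of operators with zero trace form is solvable
-/

set_option autoImplicit false

namespace Pool.Agent.P09.Triple

universe u

attribute [local instance 100] LieRing.ofAssociativeRing

open LieAlgebra in
lemma solvable_of_trace {V : Type u} [AddCommGroup V] [Module ℂ V] [FiniteDimensional ℂ V]
    (r : LieSubalgebra ℂ (Module.End ℂ V))
    (htr : ∀ S ∈ r, ∀ T ∈ r, LinearMap.trace ℂ V (S * T) = 0) : LieAlgebra.IsSolvable r := by
  have tf : LieModule.traceForm ℂ r V = 0 := by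
    ext ⟨S, hS⟩ ⟨T, hT⟩
    exact htr S hS T hT
  have nil : LieModule.IsNilpotent (derivedSeries ℂ r 1) V :=
    LieModule.isNilpotent_derivedSeries_of_traceForm_eq_zero tf
  have ring_nil : LieRing.IsNilpotent (derivedSeries ℂ r 1) := by
    rw [LieAlgebra.isNilpotent_iff_forall (R := ℂ)]
    rintro ⟨x, hx⟩
    apply LieSubalgebra.isNilpotent_ad_of_isNilpotent_ad
      ((derivedSeries ℂ r 1) : LieSubalgebra ℂ r) (x := ⟨x, hx⟩)
    apply LieSubalgebra.isNilpotent_ad_of_isNilpotent_ad r (x := x)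
    apply LieAlgebra.ad_nilpotent_of_nilpotent
    exact (LieModule.isNilpotent_iff_forall' (R := ℂ)).mp nil ⟨x, hx⟩
  obtain ⟨k, hk⟩ := IsSolvable.solvable ℂ (derivedSeries ℂ r 1)
  rw [LieIdeal.derivedSeries_eq_bot_iff] at hk
  refine IsSolvable.mk (R := ℂ) (k := k + 1) ?_
  rw [derivedSeries_def, derivedSeriesOfIdeal_add]
  exact hk

end Pool.Agent.P09.Triple
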